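import Pool.Agent.Helper79.NC.Defs

/-!
# Interfaces of the modules of the construction for `MP_4787eb_gt`

* hyperbolic three-space in tube coordinates `(w, θ) ∈ ℂ × ℝ` around a geodesic,
* the lattice (`ExistsTubeLattice`),
* the spiral potential (`spiral`, `SpiralSmooth`, `SpiralCriterion`, ...),
* tube metrics `F(w) dθ² + |dw|² - σ(w) (w·dw)²`.
-/

namespace Pool.Agent.Helper79.NC

open scoped ContDiff

/-- The total space `ℂ × ℝ` (real dimension three), coordinates `(w, θ)`. -/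
abbrev E3 : Type := ℂ × ℝ

/-- The real inner product of `ℂ = ℝ²`. -/
def dot (a b : ℂ) : ℝ := a.re * b.re + a.im * b.im

/-- The hyperbolic metric of curvature `-1` in tube coordinates around the geodesic `w = 0`
(`|w| = sinh r`): `(1+|w|²) dθ² + |dw|² - (w·dw)²/(1+|w|²)`. -/
noncomputable def hypForm (x v w : E3) : ℝ :=
  (1 + Complex.normSq x.1) * v.2 * w.2 + dot v.1 w.1
    - dot x.1 v.1 * dot x.1 w.1 / (1 + Complex.normSq x.1)

/-- A group acting on `ℂ × ℝ` freely, properly discontinuously and cocompactly by isometries of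
the hyperbolic metric `hypForm`, such that the tube `|w| < 1` is precisely invariant with
stabiliser consisting of translations `θ ↦ θ + ℓ`, and containing a nontrivial translation. -/
structure IsTubeLattice (Γ : Type) [Group Γ] [MulAction Γ E3] : Prop where
  smooth : ∀ γ : Γ, ContDiff ℝ ∞ (fun x : E3 => γ • x)
  isometry : ∀ (γ : Γ) (x v w : E3),
    hypForm (γ • x) (fderiv ℝ (fun y : E3 => γ • y) x v) (fderiv ℝ (fun y : E3 => γ • y) x w)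
      = hypForm x v w
  free : ∀ (γ : Γ) (x : E3), γ • x = x → γ = 1
  properlyDiscontinuous : ∀ K L : Set E3, IsCompact K → IsCompact L →
    {γ : Γ | (((fun x : E3 => γ • x) '' K) ∩ L).Nonempty}.Finite
  cocompact : ∃ K : Set E3, IsCompact K ∧ ∀ x : E3, ∃ γ : Γ, γ • x ∈ K
  tube : ∀ (γ : Γ) (x : E3), ‖x.1‖ < 1 → ‖(γ • x).1‖ < 1 →
    ∃ ℓ : ℝ, ∀ y : E3, γ • y = (y.1, y.2 + ℓ)
  translation : ∃ (γ : Γ) (ℓ : ℝ), 0 < ℓ ∧ ∀ y : E3, γ • y = (y.1, y.2 + ℓ)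

/-- Target of the lattice module. -/
def ExistsTubeLattice : Prop :=
  ∃ (Γ : Type) (_ : Group Γ) (_ : MulAction Γ E3), IsTubeLattice Γ

/-! ### The spiral potential -/

/-- `e^{iΘ}`, `Θ = arg w - 1/t`, `t = |w| - 1`. -/
noncomputable def spE (w : ℂ) : ℂ :=
  w / (‖w‖ : ℂ) * Complex.exp (-(((1 / (‖w‖ - 1) : ℝ) : ℂ) * Complex.I))

/-- `λ(t)`: equal to `0` for `t ≤ 1/2` and to `1` for `t ≥ 3/4`. -/
noncomputable def spLam (t : ℝ) : ℝ := Real.smoothTransition (4 * t - 2)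

/-- `τ = 1 - (1 - λ(t)) cos Θ`. -/
noncomputable def spTau (w : ℂ) : ℝ := 1 - (1 - spLam (‖w‖ - 1)) * (spE w).re

/-- The spiral potential `exp(-N (K t^{-7} + 1/τ))`, `t = |w| - 1`, extended by `0` to the closed
unit disc and to the spiral `τ = 0`, i.e. `w = |w| e^{i/(|w|-1)}`, `1 < |w| ≤ 3/2`. -/
noncomputable def spiral (N K : ℝ) (w : ℂ) : ℝ :=
  if ‖w‖ ≤ 1 then 0 else if spTau w ≤ 0 then 0 else
    Real.exp (-(N * (K * ((‖w‖ - 1) ^ 7)⁻¹ + (spTau w)⁻¹)))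

/-- Module S1. -/
def SpiralSmooth : Prop := ∀ N K : ℝ, 0 < N → 0 < K → ContDiff ℝ ∞ (spiral N K)

/-- The squared length of the gradient of `Φ` at `w`. -/
noncomputable def gradSq (Φ : ℂ → ℝ) (w : ℂ) : ℝ :=
  (fderiv ℝ Φ w 1) ^ 2 + (fderiv ℝ Φ w Complex.I) ^ 2

/-- The gradient of `Φ` at `w`, as a complex number. -/
noncomputable def gradC (Φ : ℂ → ℝ) (w : ℂ) : ℂ :=
  ⟨fderiv ℝ Φ w 1, fderiv ℝ Φ w Complex.I⟩

/-- `Hess (log Φ) ≥ -δ |∇ log Φ|²` at `w`, multiplied by `Φ²`. -/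
def LogCriterion (δ : ℝ) (Φ : ℂ → ℝ) (w : ℂ) : Prop :=
  ∀ X : ℂ, (fderiv ℝ Φ w X) ^ 2 - δ * gradSq Φ w * Complex.normSq X
    ≤ Φ w * fderiv ℝ (fderiv ℝ Φ) w X X

/-- Module S2: the criterion in `|w| < 5`, and no critical points off the zero set. -/
def SpiralCriterion : Prop :=
  ∃ K : ℝ, 0 < K ∧ ∀ δ : ℝ, 0 < δ → ∃ N₀ : ℝ, 0 < N₀ ∧ ∀ N : ℝ, N₀ ≤ N → ∀ w : ℂ, ‖w‖ < 5 →
    LogCriterion δ (spiral N K) w ∧ (fderiv ℝ (spiral N K) w = 0 → spiral N K w = 0)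

/-- Module S3: near every point `z` of the spiral strand there is a strictly convex function
which does not decrease along the gradient of the potential. -/
def SpiralLyapunov : Prop :=
  ∀ N K : ℝ, 0 < N → 0 < K → ∀ z : ℂ, 1 < ‖z‖ → spiral N K z = 0 →
    ∃ (V : ℂ → ℝ) (r : ℝ), 0 < r ∧ ContDiffOn ℝ 2 V (Metric.ball z r) ∧
      ∀ x ∈ Metric.ball z r, (∀ X : ℂ, X ≠ 0 → 0 < fderiv ℝ (fderiv ℝ V) x X X) ∧
        0 ≤ fderiv ℝ V x (gradC (spiral N K) x)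

/-- Module S4: a path in the zero set which starts on the strand never reaches the disc. -/
def SpiralPath : Prop :=
  ∀ N K : ℝ, 0 < N → 0 < K → ∀ z : ℝ → ℂ, ContinuousOn z (Set.Icc 0 1) →
    (∀ s ∈ Set.Icc (0 : ℝ) 1, spiral N K (z s) = 0) → 1 < ‖z 0‖ → 1 < ‖z 1‖

/-! ### Tube metrics -/

/-- `v ↦ v.1.re` -/
noncomputable def reL : E3 →L[ℝ] ℝ := Complex.reCLM.comp (ContinuousLinearMap.fst ℝ ℂ ℝ)
/-- `v ↦ v.1.im` -/
noncomputable def imL : E3 →L[ℝ] ℝ := Complex.imCLM.comp (ContinuousLinearMap.fst ℝ ℂ ℝ)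
/-- `v ↦ v.2` -/
noncomputable def thL : E3 →L[ℝ] ℝ := ContinuousLinearMap.snd ℝ ℂ ℝ

/-- The bilinear form `(v, w) ↦ f v * h w`. -/
noncomputable def tens (f h : E3 →L[ℝ] ℝ) : E3 →L[ℝ] E3 →L[ℝ] ℝ := f.smulRight h

/-- `v ↦ w · v.1` -/
noncomputable def radL (w : ℂ) : E3 →L[ℝ] ℝ := w.re • reL + w.im • imL

/-- The metric `F(w) dθ² + |dw|² - σ(w) (w·dw)²` on `ℂ × ℝ`. -/
noncomputable def tubeMetric (F σ : ℂ → ℝ) (x : E3) : E3 →L[ℝ] E3 →L[ℝ] ℝ :=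
  F x.1 • tens thL thL + (tens reL reL + tens imL imL) - σ x.1 • tens (radL x.1) (radL x.1)

theorem tubeMetric_apply (F σ : ℂ → ℝ) (x v w : E3) :
    tubeMetric F σ x v w = F x.1 * v.2 * w.2 + dot v.1 w.1
      - σ x.1 * dot x.1 v.1 * dot x.1 w.1 := by
  simp only [tubeMetric, tens, thL, reL, imL, radL, dot, sub_apply, add_apply, smul_apply,
    ContinuousLinearMap.smulRight_apply, ContinuousLinearMap.comp_apply,
    ContinuousLinearMap.coe_fst', ContinuousLinearMap.coe_snd', Complex.reCLM_apply,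
    Complex.imCLM_apply, smul_eq_mul]
  ring

/-! ### Geometry modules -/

/-- Isometries map geodesics to geodesics. -/
def IsoGeodesic : Prop :=
  ∀ (g : E3 → E3 →L[ℝ] E3 →L[ℝ] ℝ) (φ ψ : E3 → E3), IsRiemannianMetric g →
    ContDiff ℝ ∞ φ → ContDiff ℝ ∞ ψ → (∀ x, ψ (φ x) = x) → (∀ x, φ (ψ x) = x) →
    (∀ x v w, g (φ x) (fderiv ℝ φ x v) (fderiv ℝ φ x w) = g x v w) →
    ∀ c : ℝ → E3, IsGeodesic g c → IsGeodesic g (fun t => φ (c t))

/-- A Jacobi field which vanishes on an interval vanishes identically. -/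
def JacobiUnique : Prop :=
  ∀ (g : E3 → E3 →L[ℝ] E3 →L[ℝ] ℝ), IsRiemannianMetric g →
    ∀ c J : ℝ → E3, IsGeodesic g c → IsJacobiField g c J →
      ∀ a b : ℝ, a < b → (∀ t ∈ Set.Ioo a b, J t = 0) → ∀ t, J t = 0

/-- A homotopy through closed geodesics of `M = E/Γ` lifts to a family of geodesics of `E` which
are all invariant under the same deck transformation. -/
def LiftHomotopy : Prop :=
  ∀ (Γ : Type) [Group Γ] [MulAction Γ E3] (g : E3 → E3 →L[ℝ] E3 →L[ℝ] ℝ),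
    PresentsClosedManifold Γ g →
    ∀ (T : Γ) (c₀ c₁ : ℝ → E3) (γ₀ γ₁ : C(AddCircle (1 : ℝ), QuotM E3 Γ)),
      IsGeodesic g c₀ → IsGeodesic g c₁ → (∀ t, c₀ (t + 1) = T • c₀ t) →
      (∀ t : ℝ, γ₀ (t : AddCircle (1 : ℝ)) = proj Γ (c₀ t)) →
      (∀ t : ℝ, γ₁ (t : AddCircle (1 : ℝ)) = proj Γ (c₁ t)) →
      HomotopicThroughClosedGeodesics Γ g γ₀ γ₁ →
      ∃ H : ℝ → ℝ → E3,
        ContinuousOn (fun p : ℝ × ℝ => H p.1 p.2) (Set.Icc 0 1 ×ˢ Set.univ) ∧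
        H 0 = c₀ ∧
        (∀ s ∈ Set.Icc (0 : ℝ) 1, IsGeodesic g (H s) ∧ (∃ t, deriv (H s) t ≠ 0) ∧
          ∀ t, H s (t + 1) = T • H s t) ∧
        ∃ δ : Γ, ∀ t, H 1 t = δ • c₁ t

/-- The global metric: the tube metric in all tubes, the hyperbolic metric elsewhere. -/
def GlobalMetric : Prop :=
  ∀ (Γ : Type) [Group Γ] [MulAction Γ E3], IsTubeLattice Γ →
    ∀ (F σ : ℂ → ℝ), ContDiff ℝ ∞ F → ContDiff ℝ ∞ σ → (∀ w, 0 < F w) →
      (∀ w, 0 ≤ σ w) → (∀ w, σ w * Complex.normSq w < 1) →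
      (∀ w, 1 / 4 ≤ ‖w‖ → F w = 1 + Complex.normSq w) →
      (∀ w, 1 / 4 ≤ ‖w‖ → σ w = 1 / (1 + Complex.normSq w)) →
      ∃ g : E3 → E3 →L[ℝ] E3 →L[ℝ] ℝ, PresentsClosedManifold Γ g ∧
        (∀ x : E3, ‖x.1‖ < 1 → g x = tubeMetric F σ x) ∧
        (∀ x : E3, (∀ γ : Γ, 1 / 2 < ‖(γ • x).1‖) → ∀ v w, g x v w = hypForm x v w) ∧
        IsOpen {x : E3 | ∀ γ : Γ, 1 / 2 < ‖(γ • x).1‖}

end Pool.Agent.Helper79.NC
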