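import Mathlib

/-!
# Algebraic inequalities behind the Riccati certificate
-/

namespace Pool.Agent.Helper79.NC.Alg

/-- The index density minus the derivative of the exact certificate is a square plus the
transversal term. -/
theorem id_e (v1 v2 y1 y2 z1 z2 g1 g2 h11 h12 h22 G Gp W : ℝ) (hW : W = v1^2+v2^2) (hW0 : W ≠ 0) :
    z1^2 + z2^2 + (h11*y1^2+2*h12*y1*y2+h22*y2^2)
      - (2*((h11*v1*y1+h12*(v1*y2+v2*y1)+h22*v2*y2 + (g1*z1+g2*z2))*(v1*y1+v2*y2)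
            + (g1*y1+g2*y2)*(g1*y1+g2*y2 + (v1*z1+v2*z2)))/W
        - 4*(g1*v1+g2*v2)*(g1*y1+g2*y2)*(v1*y1+v2*y2)/W^2
        - ((h11*v1^2+2*h12*v1*v2+h22*v2^2 + (g1^2+g2^2))*(v1*y1+v2*y2)^2
            + 2*(g1*v1+g2*v2)*(v1*y1+v2*y2)*(g1*y1+g2*y2 + (v1*z1+v2*z2)))/W^2
        + 4*(g1*v1+g2*v2)^2*(v1*y1+v2*y2)^2/W^3
        - (1/2)*(Gp*(v1*y2-v2*y1)^2 + 2*G*(v1*y2-v2*y1)*((g1*y2-g2*y1)+(v1*z2-v2*z1)))/W
        + G*(g1*v1+g2*v2)*(v1*y2-v2*y1)^2/W^2)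
    = (z1 - ((g1*(v1*y1+v2*y2)+v1*(g1*y1+g2*y2))/W - (g1*v1+g2*v2)*v1*(v1*y1+v2*y2)/W^2
          + (1/2)*G*(v1*y2-v2*y1)/W*v2))^2
      + (z2 - ((g2*(v1*y1+v2*y2)+v2*(g1*y1+g2*y2))/W - (g1*v1+g2*v2)*v2*(v1*y1+v2*y2)/W^2
          - (1/2)*G*(v1*y2-v2*y1)/W*v1))^2
      + ((h11*v2^2-2*h12*v1*v2+h22*v1^2)/W - 3*(g2*v1-g1*v2)^2/W^2 + (1/2)*Gp - (1/4)*G^2)
          * (v1*y2-v2*y1)^2/W := by
  subst hW
  field_simp
  ring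

theorem f0_pos (z : ℝ) (hz : 2 ≤ z) :
    (0.016:ℝ) ≤ (z^2/2 - 3*z/4 + 1/2)/(1+z)^2 - (1/1000)*(1 + z/(2*(1+z))) := by
  have h1 : 0 < 1 + z := by linarith
  have h2 : z/(2*(1+z)) ≤ 1/2 := by
    rw [div_le_iff₀ (by positivity)]; linarith
  have h3 : (0.02:ℝ) ≤ (z^2/2 - 3*z/4 + 1/2)/(1+z)^2 := by
    rw [le_div_iff₀ (by positivity)]; nlinarith
  linarith

theorem f1_pos (z : ℝ) (hz : 2 ≤ z) :
    (0.016:ℝ) ≤ 1/(2*(1+z)) - 1/8 - z/256 + z^2/256 - (1/1000)*(1 + z/(2*(1+z))) := by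
  have h1 : 0 < 1 + z := by linarith
  have h2 : z/(2*(1+z)) ≤ 1/2 := by
    rw [div_le_iff₀ (by positivity)]; linarith
  have h3 : (0.0175:ℝ) ≤ 1/(2*(1+z)) - 1/8 - z/256 + z^2/256 := by
    have : 1/(2*(1+z)) - 1/8 - z/256 + z^2/256 = (z^3 - 33*z + 96)/(256*(1+z)) := by
      field_simp; ring
    rw [this, le_div_iff₀ (by positivity)]
    nlinarith [sq_nonneg (z - 3.5), mul_nonneg (by linarith : (0:ℝ) ≤ z) (sq_nonneg (z-3.5))]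
  linarith

/-- the coefficient of the transversal term -/
theorem keyB (z s l : ℝ) (hz : 2 < z) (hs0 : 0 ≤ s) (hs1 : s ≤ 1)
    (hl : l = max 0 (1 - z/16)) :
    (0.015:ℝ) ≤ (1/2)*(1 - z/1000)/(1+z) + (1-s)*z*(z/2-5/4)/(1+z)^2 - 1/1000
      + s*((1-l^2)*(1-3/z) - (1/8)*l*(z-2)) := by
  have h1 : 0 < 1 + z := by linarith
  have h0 : 0 < z := by linarith
  have e0 := f0_pos z hz.le
  have eq0 : (z^2/2 - 3*z/4 + 1/2)/(1+z)^2 - (1/1000)*(1 + z/(2*(1+z)))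
      = (1/2)*(1 - z/1000)/(1+z) + z*(z/2-5/4)/(1+z)^2 - 1/1000 := by
    field_simp; ring
  rw [eq0] at e0
  rcases le_total z 16 with h | h
  · have hl' : l = 1 - z/16 := by rw [hl]; exact max_eq_right (by linarith only [h])
    have e1 := f1_pos z hz.le
    have eq1 : (1-l^2)*(1-3/z) - (1/8)*l*(z-2) = - 1/8 - z/256 + z^2/256 := by
      rw [hl']; field_simp; ring
    have eq2 : 1/(2*(1+z)) - 1/8 - z/256 + z^2/256 - (1/1000)*(1 + z/(2*(1+z)))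
      = (1/2)*(1 - z/1000)/(1+z) - 1/1000 + (- 1/8 - z/256 + z^2/256) := by
      field_simp; ring
    rw [eq2] at e1
    rw [eq1]
    have : (1/2)*(1 - z/1000)/(1+z) + (1-s)*z*(z/2-5/4)/(1+z)^2 - 1/1000
      + s*(- 1/8 - z/256 + z^2/256)
      = (1-s)*((1/2)*(1 - z/1000)/(1+z) + z*(z/2-5/4)/(1+z)^2 - 1/1000)
        + s*((1/2)*(1 - z/1000)/(1+z) - 1/1000 + (- 1/8 - z/256 + z^2/256)) := by ring
    rw [this]
    nlinarith only [hs0, e1, hs1, e0]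
  · have hl' : l = 0 := by rw [hl]; exact max_eq_left (by linarith only [h])
    rw [hl']
    have e1 : (0.016:ℝ) ≤ (1/2)*(1 - z/1000)/(1+z) - 1/1000 + (1 - 3/z) := by
      have a1 : 3/z ≤ 3/16 := by gcongr
      have a2 : -(1/1000) ≤ (1/2)*(1 - z/1000)/(1+z) := by
        rw [le_div_iff₀ h1]; linarith only [h]
      linarith only [a1, a2]
    have : (1/2)*(1 - z/1000)/(1+z) + (1-s)*z*(z/2-5/4)/(1+z)^2 - 1/1000
      + s*((1-(0:ℝ)^2)*(1-3/z) - (1/8)*0*(z-2))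
      = (1-s)*((1/2)*(1 - z/1000)/(1+z) + z*(z/2-5/4)/(1+z)^2 - 1/1000)
        + s*((1/2)*(1 - z/1000)/(1+z) - 1/1000 + (1-3/z)) := by ring
    rw [this]
    nlinarith only [hs0, e1, hs1, e0]

/-- the coefficient of the isotropic part -/
theorem keyA (z c : ℝ) (hz : 0 ≤ z) (hz' : z ≤ 16) (hc0 : 0 ≤ c) (hc1 : c ≤ 1) :
    (0.02:ℝ) ≤ (1/2)*(1 - z/1000)/(1+z) + c*z*(z/2-5/4)/(1+z)^2 - 1/1000 := by
  have h1 : 0 < 1 + z := by linarith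
  have e0 : (0.02:ℝ) ≤ (1/2)*(1 - z/1000)/(1+z) - 1/1000 := by
    have : (0.021:ℝ) ≤ (1/2)*(1 - z/1000)/(1+z) := by
      rw [le_div_iff₀ h1]; nlinarith
    linarith only [this]
  have e1 : (0.02:ℝ) ≤ (1/2)*(1 - z/1000)/(1+z) + z*(z/2-5/4)/(1+z)^2 - 1/1000 := by
    have : (0.021:ℝ) ≤ (1/2)*(1 - z/1000)/(1+z) + z*(z/2-5/4)/(1+z)^2 := by
      have : (1/2)*(1 - z/1000)/(1+z) + z*(z/2-5/4)/(1+z)^2
        = ((1/2)*(1 - z/1000)*(1+z) + z*(z/2-5/4))/(1+z)^2 := by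
        field_simp
      rw [this, le_div_iff₀ (by positivity)]; nlinarith only [sq_nonneg (z-1)]
    linarith
  have : (1/2)*(1 - z/1000)/(1+z) + c*z*(z/2-5/4)/(1+z)^2 - 1/1000
    = (1-c)*((1/2)*(1 - z/1000)/(1+z) - 1/1000)
      + c*((1/2)*(1 - z/1000)/(1+z) + z*(z/2-5/4)/(1+z)^2 - 1/1000) := by ring
  rw [this]; nlinarith only [hc0, e1, hc1, e0]

theorem lin2 {c s e x y : ℝ} (hc : 0 ≤ c) (hs : 0 ≤ s) (hx : e ≤ x) (hy : e ≤ y) :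
    e * (c + s) ≤ c * x + s * y := by
  have h1 := mul_le_mul_of_nonneg_left hx hc
  have h2 := mul_le_mul_of_nonneg_left hy hs
  linarith

theorem comb1 {ζ ε η n X m : ℝ} (hζ : 0 ≤ ζ) (hε : 0 ≤ ε) (hη : 0 ≤ η) (hn : 0 ≤ n)
    (hX : (0.015:ℝ) * n ≤ X) (hm : m ≤ n) (h : ε ≤ 0.01 * ζ + η/2) :
    0 ≤ ζ * X - ε * m + η * n := by
  have h1 := mul_le_mul_of_nonneg_left hX hζ
  have h2 := mul_le_mul_of_nonneg_left hm hε
  have h3 := mul_le_mul_of_nonneg_right h hn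
  have h4 := mul_nonneg hζ hn
  have h5 := mul_nonneg hη hn
  linarith only [h1, h2, h3, h4, h5]

theorem comb2 {ζ ε η n L X Y m : ℝ} (hζ : 0 ≤ ζ) (hε : 0 ≤ ε) (hη : 0 ≤ η) (hn : 0 ≤ n)
    (hL0 : 0 ≤ L) (hL1 : L ≤ 1) (hY : 0 ≤ Y)
    (hX : (0.02:ℝ) * (L * n) ≤ L * X) (hm : m ≤ n / 2) (h : ε ≤ 0.01 * ζ + η/2) :
    0 ≤ ζ * (L * X + Y) - ε * (L * m) + η * n := by
  have h1 := mul_le_mul_of_nonneg_left hX hζ
  have hLn : 0 ≤ L * n := mul_nonneg hL0 hn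
  have hLn1 : L * n ≤ n := by
    have := mul_le_mul_of_nonneg_right hL1 hn
    linarith only [this]
  have h2 : ε * (L * m) ≤ ε * (L * (n/2)) := by gcongr
  have h3 := mul_le_mul_of_nonneg_right h hLn
  have h4 := mul_nonneg hζ hLn
  have h5 := mul_nonneg hζ hY
  have h6 := mul_le_mul_of_nonneg_left hLn1 hη
  have h7 := mul_nonneg hη hn
  linarith only [h1, h2, h3, h4, h5, h6, h7]

set_option maxHeartbeats 4000000 in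
/-- Main inequality, case `E > 0`, normalised: `W = z q`, `p² = c W`, `r² = s W`. -/
theorem mainB (q z W c s n p r A B HYY Hvv Hnn gY ζ ε η l YY G Gp : ℝ)
    (hq : 0 < q) (hz : 2 < z) (hWz : W = z * q) (hc : 0 ≤ c) (hs : 0 ≤ s) (hn : n = c + s)
    (hp : p^2 = c * W) (hr : r^2 = s * W) (hgY : gY * W = p * A + r * B)
    (hl : l = max 0 (1 - z/16)) (hYY : YY * W = A^2 + B^2)
    (hHvv : p^2 - (1/1000) * n * W ≤ q * Hvv) (hHnn : r^2 - (1/1000) * n * W ≤ q * Hnn)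
    (hHYY : gY^2 - (1/1000) * n * YY ≤ q * HYY) (hS : η * n * YY ≤ (1-ζ) * (q * HYY))
    (hζ0 : 0 ≤ ζ) (hε : 0 ≤ ε) (hη : 0 ≤ η) (hεη : ε ≤ 0.01 * ζ + η/2)
    (hG : G = p/(W+q)) (hGp : Gp = ((Hvv+n)*(W+q) - 3*p^2)/(W+q)^2) :
    0 ≤ ζ*l^2*(HYY + (Gp/2 - G^2/4)*YY)
      + ζ*(1-l^2)*(Hnn/W - 3*r^2/W^2 + (Gp/2 - G^2/4))*(B^2/W)
      + (1-ζ)*HYY
      - ζ*((1/8)*l*(z-2)*(p/q))*(-(1/2)*G*YY - (2*gY*A/W - p*A^2/W^2 - (1/2)*G*(B^2/W)))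
      + ε*(p/q)*(l^2*(-(1/2)*G*YY) + (1-l^2)*(2*gY*A/W - p*A^2/W^2 - (1/2)*G*(B^2/W))) := by
  have hz0 : 0 < z := by linarith only [hz]
  have hW : 0 < W := by rw [hWz]; positivity
  have hWq : 0 < W + q := by linarith only [hq, hW]
  have hl0 : 0 ≤ l := by rw [hl]; exact le_max_left _ _
  have hl1 : l ≤ 1 := by rw [hl]; apply max_le zero_le_one; linarith only [hz]
  have hl2 : l^2 ≤ 1 := by nlinarith only [hl1, hl0]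
  have hl20 : 0 ≤ l^2 := sq_nonneg l
  have hn0 : 0 ≤ n := by rw [hn]; linarith only [hc, hs]
  have hYY0 : 0 ≤ YY := by
    have : 0 ≤ YY * W := by rw [hYY]; positivity
    exact nonneg_of_mul_nonneg_left this hW
  -- lower bound K for q k
  set k := Gp/2 - G^2/4 with hk
  set K : ℝ := n*((1/2)*(1 - z/1000)/(1+z)) + c*(z*(z/2-5/4)/(1+z)^2) with hK
  have hWq' : W + q = q*(1+z) := by rw [hWz]; ring
  have hKk : K ≤ q*k := by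
    have h1 : q*k = (1/2)*((q*Hvv + q*n)*(W+q) - 3*q*p^2)/(W+q)^2 - (1/4)*q*p^2/(W+q)^2 := by
      rw [hk, hGp, hG]; field_simp
    have h2 : (1/2)*((p^2 - (1/1000) * n * W + q*n)*(W+q) - 3*q*p^2)/(W+q)^2
        - (1/4)*q*p^2/(W+q)^2 ≤ q*k := by
      rw [h1]; gcongr
    refine le_trans (le_of_eq ?_) h2
    rw [hK, hp, hWq', hWz, hn]
    field_simp
    ring
  -- the p times certificate terms
  have hgY2 : gY = (p*A + r*B)/W := by rw [eq_div_iff hW.ne']; exact hgY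
  have hYY2 : YY = A^2/W + B^2/W := by
    rw [← add_div, eq_div_iff hW.ne']; exact hYY
  have hpUe : p*(2*gY*A/W - p*A^2/W^2 - (1/2)*G*(B^2/W))
      = gY^2 - s*(B^2/W) - (1/2)*(c*z/(1+z))*(B^2/W) := by
    have hpG : p*G = c*z/(1+z) := by
      rw [hG, mul_div_assoc', ← sq, hp, hWq', hWz]; field_simp
    have : p*(2*gY*A/W - p*A^2/W^2 - (1/2)*G*(B^2/W))
      = (2*p*gY*A/W - p^2*A^2/W^2) - (1/2)*(p*G)*(B^2/W) := by ring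
    rw [this, hpG]
    have h3 : 2*p*gY*A/W - p^2*A^2/W^2 = gY^2 - s*(B^2/W) := by
      have : s*(B^2/W) = r^2*B^2/W^2 := by rw [hr]; field_simp
      rw [this, hgY2]; field_simp; ring
    rw [h3]
  have hpUi : p*(-(1/2)*G*YY) = -(1/2)*(c*z/(1+z))*YY := by
    have hpG : p*G = c*z/(1+z) := by
      rw [hG, mul_div_assoc', ← sq, hp, hWq', hWz]; field_simp
    have : p*(-(1/2)*G*YY) = -(1/2)*(p*G)*YY := by ring
    rw [this, hpG]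
  -- multiply by q
  suffices h : 0 ≤ q * (ζ*l^2*(HYY + k*YY)
      + ζ*(1-l^2)*(Hnn/W - 3*r^2/W^2 + k)*(B^2/W)
      + (1-ζ)*HYY
      - ζ*((1/8)*l*(z-2)*(p/q))*(-(1/2)*G*YY - (2*gY*A/W - p*A^2/W^2 - (1/2)*G*(B^2/W)))
      + ε*(p/q)*(l^2*(-(1/2)*G*YY) + (1-l^2)*(2*gY*A/W - p*A^2/W^2 - (1/2)*G*(B^2/W)))) by
    exact nonneg_of_mul_nonneg_right h hq
  have hcz : c*z/(1+z) ≤ c := by
    rw [div_le_iff₀ (by linarith only [hz])]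
    have : c*(1+z) = c*z + c := by ring
    rw [this]; linarith only [hc]
  have hcz0 : 0 ≤ c*z/(1+z) := by positivity
  have e1 : q * (ζ*l^2*(HYY + k*YY)
      + ζ*(1-l^2)*(Hnn/W - 3*r^2/W^2 + k)*(B^2/W)
      + (1-ζ)*HYY
      - ζ*((1/8)*l*(z-2)*(p/q))*(-(1/2)*G*YY - (2*gY*A/W - p*A^2/W^2 - (1/2)*G*(B^2/W)))
      + ε*(p/q)*(l^2*(-(1/2)*G*YY) + (1-l^2)*(2*gY*A/W - p*A^2/W^2 - (1/2)*G*(B^2/W))))
     = ζ*l^2*(q*HYY) + ζ*l^2*((q*k)*YY) + ζ*(1-l^2)*((q*Hnn)/W*(B^2/W))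
        - ζ*(1-l^2)*(3*q*r^2/W^2*(B^2/W)) + ζ*(1-l^2)*((q*k)*(B^2/W)) + (1-ζ)*(q*HYY)
        - ζ*((1/8)*l*(z-2))*(p*(-(1/2)*G*YY) - p*(2*gY*A/W - p*A^2/W^2 - (1/2)*G*(B^2/W)))
        + ε*(l^2*(p*(-(1/2)*G*YY)) + (1-l^2)*(p*(2*gY*A/W - p*A^2/W^2 - (1/2)*G*(B^2/W)))) := by
    field_simp
    ring
  rw [e1, hpUe, hpUi]
  have hr2 : 3*q*r^2/W^2*(B^2/W) = 3*s/z*(B^2/W) := by
    rw [hr, hWz]; field_simp
  rw [hr2]
  have hA2 : 0 ≤ A^2/W := by positivity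
  have hB2 : 0 ≤ B^2/W := by positivity
  set a2 := A^2/W with ha2
  set b2 := B^2/W with hb2
  have t1 : ζ*l^2*(gY^2 - (1/1000)*n*YY) ≤ ζ*l^2*(q*HYY) := by gcongr
  have t2 : ζ*l^2*(K*YY) ≤ ζ*l^2*((q*k)*YY) := by gcongr
  have t3 : ζ*(1-l^2)*((s - (1/1000)*n)*b2) ≤ ζ*(1-l^2)*((q*Hnn)/W*b2) := by
    have : s - (1/1000)*n ≤ (q*Hnn)/W := by
      rw [le_div_iff₀ hW]; rw [hr] at hHnn; linarith only [hHnn]
    have h1l : 0 ≤ 1 - l^2 := by linarith only [hl2]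
    gcongr
  have t4 : ζ*(1-l^2)*(K*b2) ≤ ζ*(1-l^2)*((q*k)*b2) := by
    have h1l : 0 ≤ 1 - l^2 := by linarith only [hl2]
    gcongr
  have t5 : η*n*YY ≤ (1-ζ)*(q*HYY) := hS
  -- coefficients
  have cB : 0 ≤ ζ*(l^2*(K - (1/1000)*n) + (1-l^2)*(s - (1/1000)*n - 3*s/z + K)
      - (1/8)*l*(z-2)*s) - ε*((1-l^2)*s + (1/2)*(c*z/(1+z))) + η*n := by
    have k0 := keyB z 0 l hz le_rfl zero_le_one hl
    have k1 := keyB z 1 l hz zero_le_one le_rfl hl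
    have h1 : (0.015:ℝ)*n ≤ l^2*(K - (1/1000)*n) + (1-l^2)*(s - (1/1000)*n - 3*s/z + K)
      - (1/8)*l*(z-2)*s := by
      have : l^2*(K - (1/1000)*n) + (1-l^2)*(s - (1/1000)*n - 3*s/z + K)
          - (1/8)*l*(z-2)*s
        = c*((1/2)*(1 - z/1000)/(1+z) + (1-0)*z*(z/2-5/4)/(1+z)^2 - 1/1000
            + 0*((1-l^2)*(1-3/z) - (1/8)*l*(z-2)))
         + s*((1/2)*(1 - z/1000)/(1+z) + (1-1)*z*(z/2-5/4)/(1+z)^2 - 1/1000
            + 1*((1-l^2)*(1-3/z) - (1/8)*l*(z-2))) := by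
        rw [hK, hn]; ring
      rw [this, hn]; exact lin2 hc hs k0 k1
    have h2 : (1-l^2)*s + (1/2)*(c*z/(1+z)) ≤ n := by
      rw [hn]
      have : (1-l^2)*s ≤ s := by
        have := mul_nonneg hl20 hs
        linarith only [this]
      linarith only [hc, hcz, this]
    exact comb1 hζ0 hε hη hn0 h1 h2 hεη
  have cA : 0 ≤ ζ*(l^2*(K - (1/1000)*n) + (1/8)*l*(z-2)*((1/2)*(c*z/(1+z))))
      - ε*(l^2*((1/2)*(c*z/(1+z)))) + η*n := by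
    have hK1 : (0.02:ℝ)*(l^2*n) ≤ l^2*(K - (1/1000)*n) := by
      rcases le_total z 16 with h16 | h16
      · have k0 := keyA z 0 hz0.le h16 le_rfl zero_le_one
        have k1 := keyA z 1 hz0.le h16 zero_le_one le_rfl
        have : (0.02:ℝ)*n ≤ K - (1/1000)*n := by
          have : K - (1/1000)*n = s*((1/2)*(1 - z/1000)/(1+z) + 0*z*(z/2-5/4)/(1+z)^2 - 1/1000)
            + c*((1/2)*(1 - z/1000)/(1+z) + 1*z*(z/2-5/4)/(1+z)^2 - 1/1000) := by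
            rw [hK, hn]; ring
          rw [this, hn, add_comm c s]; exact lin2 hs hc k0 k1
        calc (0.02:ℝ)*(l^2*n) = l^2*(0.02*n) := by ring
          _ ≤ _ := by gcongr
      · have : l = 0 := by rw [hl]; exact max_eq_left (by linarith only [h16])
        rw [this]; simp
    have h2 : (1/2)*(c*z/(1+z)) ≤ n/2 := by
      have : c*z/(1+z) ≤ n := by rw [hn]; linarith only [hs, hcz]
      linarith only [hs, hn, hcz]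
    have h3 : 0 ≤ (1/8)*l*(z-2)*((1/2)*(c*z/(1+z))) := by
      have : 0 ≤ z - 2 := by linarith only [hz]
      positivity
    exact comb2 hζ0 hε hη hn0 hl20 hl2 h3 hK1 h2 hεη
  have cG : 0 ≤ ζ*l^2 + ζ*((1/8)*l*(z-2)) + ε*(1-l^2) := by
    have : 0 ≤ z - 2 := by linarith only [hz]
    have : 0 ≤ 1 - l^2 := by linarith only [hl2]
    positivity
  have fin : (ζ*l^2 + ζ*((1/8)*l*(z-2)) + ε*(1-l^2))*gY^2
     + (ζ*(l^2*(K - (1/1000)*n) + (1/8)*l*(z-2)*((1/2)*(c*z/(1+z))))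
      - ε*(l^2*((1/2)*(c*z/(1+z)))) + η*n)*a2
     + (ζ*(l^2*(K - (1/1000)*n) + (1-l^2)*(s - (1/1000)*n - 3*s/z + K)
      - (1/8)*l*(z-2)*s) - ε*((1-l^2)*s + (1/2)*(c*z/(1+z))) + η*n)*b2
     = ζ*l^2*(gY^2 - (1/1000)*n*YY) + ζ*l^2*(K*YY) + ζ*(1-l^2)*((s - (1/1000)*n)*b2)
        - ζ*(1-l^2)*(3*s/z*b2) + ζ*(1-l^2)*(K*b2) + η*n*YY
        - ζ*((1/8)*l*(z-2))*(-(1/2)*(c*z/(1+z))*YY - (gY^2 - s*b2 - (1/2)*(c*z/(1+z))*b2))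
        + ε*(l^2*(-(1/2)*(c*z/(1+z))*YY) + (1-l^2)*(gY^2 - s*b2 - (1/2)*(c*z/(1+z))*b2)) := by
    rw [hYY2]; ring
  have pos : 0 ≤ (ζ*l^2 + ζ*((1/8)*l*(z-2)) + ε*(1-l^2))*gY^2
     + (ζ*(l^2*(K - (1/1000)*n) + (1/8)*l*(z-2)*((1/2)*(c*z/(1+z))))
      - ε*(l^2*((1/2)*(c*z/(1+z)))) + η*n)*a2
     + (ζ*(l^2*(K - (1/1000)*n) + (1-l^2)*(s - (1/1000)*n - 3*s/z + K)
      - (1/8)*l*(z-2)*s) - ε*((1-l^2)*s + (1/2)*(c*z/(1+z))) + η*n)*b2 :=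
    add_nonneg (add_nonneg (mul_nonneg cG (sq_nonneg _)) (mul_nonneg cA hA2)) (mul_nonneg cB hB2)
  rw [fin] at pos
  linarith only [hS, t1, t2, t3, t4, pos]


set_option maxHeartbeats 4000000 in
/-- Main inequality, case `E ≤ 0`, normalised: `W = z q`, `0 ≤ z ≤ 2`, `p² = c W`. -/
theorem mainA (q z W c n p HYY Hvv ζ ε η YY G Gp : ℝ)
    (hq : 0 < q) (hz0 : 0 ≤ z) (hz : z ≤ 2) (hWz : W = z * q) (hc : 0 ≤ c) (hcn : c ≤ n)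
    (hp : p^2 = c * W) (hYY : 0 ≤ YY)
    (hHvv : p^2 - (1/1000) * n * W ≤ q * Hvv)
    (hHYY : - (1/1000) * n * YY ≤ q * HYY) (hS : η * n * YY ≤ (1-ζ) * (q * HYY))
    (hζ0 : 0 ≤ ζ) (hε : 0 ≤ ε) (hη : 0 ≤ η) (hεη : ε ≤ 0.01 * ζ + η/2)
    (hG : G = p/(W+q)) (hGp : Gp = ((Hvv+n)*(W+q) - 3*p^2)/(W+q)^2) :
    0 ≤ HYY + ζ*(Gp/2 - G^2/4)*YY + ε*(p/q)*(-(1/2)*G*YY) := by
  have hWq : 0 < W + q := by rw [hWz]; positivity
  have hn0 : 0 ≤ n := le_trans hc hcn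
  have hWq' : W + q = q*(1+z) := by rw [hWz]; ring
  have h1z : 0 < 1 + z := by linarith only [hz0]
  set k := Gp/2 - G^2/4 with hk
  set K : ℝ := n*((1/2)*(1 - z/1000)/(1+z)) + c*(z*(z/2-5/4)/(1+z)^2) with hK
  have hKk : K ≤ q*k := by
    have h1 : q*k = (1/2)*((q*Hvv + q*n)*(W+q) - 3*q*p^2)/(W+q)^2 - (1/4)*q*p^2/(W+q)^2 := by
      rw [hk, hGp, hG]; field_simp
    have h2 : (1/2)*((p^2 - (1/1000) * n * W + q*n)*(W+q) - 3*q*p^2)/(W+q)^2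
        - (1/4)*q*p^2/(W+q)^2 ≤ q*k := by
      rw [h1]; gcongr
    refine le_trans (le_of_eq ?_) h2
    rw [hK, hp, hWq', hWz]
    field_simp
    ring
  have hpG : p*G = c*z/(1+z) := by
    rw [hG, mul_div_assoc', ← sq, hp, hWq', hWz]; field_simp
  have hcz : c*z/(1+z) ≤ c := by
    rw [div_le_iff₀ h1z]
    have : c*(1+z) = c*z + c := by ring
    rw [this]; linarith only [hc]
  suffices h : 0 ≤ q * (HYY + ζ*k*YY + ε*(p/q)*(-(1/2)*G*YY)) by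
    exact nonneg_of_mul_nonneg_right h hq
  have e1 : q * (HYY + ζ*k*YY + ε*(p/q)*(-(1/2)*G*YY))
      = ζ*(q*HYY) + (1-ζ)*(q*HYY) + ζ*(q*k)*YY - ε*((1/2)*(p*G))*YY := by
    field_simp
    ring
  rw [e1, hpG]
  have k0 := keyA z 0 hz0 (by linarith only [hz]) le_rfl zero_le_one
  have k1 := keyA z 1 hz0 (by linarith only [hz]) zero_le_one le_rfl
  have hX : (0.015:ℝ)*n ≤ K - (1/1000)*n := by
    have : K - (1/1000)*n = (n-c)*((1/2)*(1 - z/1000)/(1+z) + 0*z*(z/2-5/4)/(1+z)^2 - 1/1000)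
      + c*((1/2)*(1 - z/1000)/(1+z) + 1*z*(z/2-5/4)/(1+z)^2 - 1/1000) := by
      rw [hK]; ring
    have h3 := lin2 (sub_nonneg.2 hcn) hc k0 k1
    rw [← this] at h3
    have : (0.02:ℝ) * (n - c + c) = 0.02*n := by ring
    rw [this] at h3
    linarith only [hc, hcn, h3]
  have h2 : (1/2)*(c*z/(1+z)) ≤ n := by linarith only [hc, hcn, hcz]
  have h3 := comb1 hζ0 hε hη hn0 hX h2 hεη
  have h4 := mul_nonneg h3 hYY
  have h5 : ζ*(-(1/1000)*n*YY) ≤ ζ*(q*HYY) := mul_le_mul_of_nonneg_left hHYY hζ0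
  have h6 : ζ*K*YY ≤ ζ*(q*k)*YY := by gcongr
  linarith only [hS, h4, h5, h6]

end Pool.Agent.Helper79.NC.Alg
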