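import Pool.Agent.Helper79.NC.Flat5
import Pool.Agent.Helper30.NCLattice
import Pool.Agent.Helper96.NCSpiralSmooth
import Pool.Agent.Helper2.NC.SpiralCriterion
import Pool.Agent.Helper44.NCSpiralLyap2
import Pool.Agent.Helper44.NCSpiralPath
import Pool.Agent.Helper74.NC.Iso
import Pool.Agent.Helper74.NC.Jacobi
import Pool.Agent.Helper61.NC.LiftHomotopy
import Pool.Agent.Helper13.NCGlobal
import Pool.Agent.Helper33.NCProfile
import Pool.Agent.Helper68.NCTube
import Pool.Agent.Helper48.NC.VarCalc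
import Pool.Agent.Helper41.NC.Geo
import Pool.Agent.Helper80.NCEq
import Pool.Agent.Helper51.NC.NoConj
import Pool.Agent.Helper93.NCHomotopic
import Pool.Agent.Helper47.NCLines
import Pool.Agent.Helper39.NC.Rad

/-!
# Assembly of the counterexample for `MP_4787eb_gt`
-/

set_option maxSynthPendingDepth 3

namespace Pool.Agent.Helper79.NC

open scoped Topology ContDiff
open Set Filter

theorem localConvexity : LocalConvexity := by
  intro T g c J hg hc hJ t₀ hperp hmet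
  have hJs : ContDiff ℝ ∞ J := jacobi_contDiff hJ
  have hcs : ContDiff ℝ ∞ c := hc.smooth
  obtain ⟨hE1, hE2⟩ := eqModule variationCalc geoFlat geoRad T g c J hc hJ t₀ hmet
  have hmet' : ∀ᶠ t in 𝓝 t₀, g (c t) = tubeMetric T.F T.σ (c t) :=
    hcs.continuous.continuousAt.eventually hmet
  have hLC : LocalConclusion T c J t₀ := by
    rcases le_or_gt (Complex.normSq (c t₀).1) T.u2 with h1 | h1
    · exact Flat.flatModule T c J t₀ hcs hJs (hE1 (lt_of_le_of_lt h1 T.u22)) h1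
    have hu0 : T.u0 < Complex.normSq (c t₀).1 := by linarith [T.u01, T.u12]
    rcases lt_or_ge (Complex.normSq (c t₀).1) (1 / 1000000) with h2 | h2
    · exact radNat T c J t₀ hcs hJs (hE2 hu0) h1 h2
    · refine radHyp T c J t₀ hcs hJs (hE2 hu0) (lt_of_lt_of_le T.u3_lt h2) ?_
      filter_upwards [hperp, hmet'] with t h3 h4
      rw [← h4]; exact h3
  obtain ⟨⟨d, hd, hder⟩, hK⟩ := hLC
  refine ⟨⟨d, hd, hder.congr_of_eventuallyEq ?_⟩, hK⟩
  have h5 : (fun τ => g (c τ) (J τ) (J τ)) =ᶠ[𝓝 t₀]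
      fun τ => tubeMetric T.F T.σ (c τ) (J τ) (J τ) := by
    filter_upwards [hmet'] with t h4
    rw [h4]
  filter_upwards [h5.eventuallyEq_nhds] with t ht
  rw [ht.deriv_eq]

theorem noConjugatePoints_of_globalData : GlobalNoConj :=
  globalNoConj localConvexity jacobiAffine isoJacobi

theorem tubeData_nonempty : Nonempty TubeData := tubeDataExists
  Pool.Agent.Helper33.NCProfile.profileExists

/-- The counterexample: a closed Riemannian three-manifold without conjugate points with two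
freely homotopic closed geodesics which are not homotopic through closed geodesics. -/
theorem counterexample :
    ∃ (Γ : Type) (_ : Group Γ) (_ : MulAction Γ (ℂ × ℝ))
      (g : ℂ × ℝ → (ℂ × ℝ) →L[ℝ] (ℂ × ℝ) →L[ℝ] ℝ),
      PresentsClosedManifold Γ g ∧ NoConjugatePoints g ∧
      ∃ γ₀ γ₁ : C(AddCircle (1 : ℝ), QuotM (ℂ × ℝ) Γ),
        IsClosedGeodesic Γ g γ₀ ∧ IsClosedGeodesic Γ g γ₁ ∧
        ContinuousMap.Homotopic γ₀ γ₁ ∧
        ¬ HomotopicThroughClosedGeodesics Γ g γ₀ γ₁ := by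
  obtain ⟨Γ, hG, hA, hL⟩ := existsTubeLattice
  obtain ⟨T⟩ := tubeData_nonempty
  have hσn : ∀ w : ℂ, 1 / 4 ≤ ‖w‖ → T.u3 ≤ Complex.normSq w := by
    intro w hw
    rw [Complex.normSq_eq_norm_sq]
    have : (1 / 4 : ℝ) ^ 2 ≤ ‖w‖ ^ 2 := by gcongr
    have := T.u3_lt
    norm_num at *
    linarith
  obtain ⟨g, hP, htube, hout, hopen⟩ := globalMetric Γ hL T.F T.σ (Flat.F_smooth T) T.hσ
    (Flat.F_pos T) T.σ_nonneg T.σ_lt
    (fun w hw => by
      unfold TubeData.F
      rw [T.hyp1 w (hσn w hw)]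
      simp)
    (fun w hw => T.hyp2 w (hσn w hw))
  have hD : GlobalData Γ T g := ⟨hL, hP, htube, hout, hopen⟩
  obtain ⟨τ, ℓ, hℓ, hτ⟩ := hL.translation
  obtain ⟨hline, γ, hγ, hhom⟩ := linesModule Γ T g hD τ ℓ hℓ hτ
  refine ⟨Γ, hG, hA, g, hP, noConjugatePoints_of_globalData Γ T g hD, γ T.z0, γ 0,
    ?_, ?_, hhom _ _, ?_⟩
  · refine ⟨_, hline T.z0 T.Φ_z0, ⟨0, ?_⟩, hγ _⟩
    have h1 : HasDerivAt (fun t : ℝ => ((T.z0, ℓ * t) : E3)) (0, ℓ * 1) 0 :=
      (hasDerivAt_const _ _).prodMk ((hasDerivAt_id (0:ℝ)).const_mul ℓ)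
    rw [h1.deriv]
    intro h
    have := congrArg Prod.snd h
    simp only [mul_one] at this
    exact hℓ.ne' this
  · refine ⟨_, hline 0 T.Φ_zero, ⟨0, ?_⟩, hγ _⟩
    have h1 : HasDerivAt (fun t : ℝ => (((0:ℂ), ℓ * t) : E3)) (0, ℓ * 1) 0 :=
      (hasDerivAt_const _ _).prodMk ((hasDerivAt_id (0:ℝ)).const_mul ℓ)
    rw [h1.deriv]
    intro h
    have := congrArg Prod.snd h
    simp only [mul_one] at this
    exact hℓ.ne' this
  · exact notHomotopic geoFlat isoGeodesic (Pool.Agent.Helper61.NC.liftHomotopy isoGeodesic)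
      Γ T g hD τ ℓ hℓ hτ (γ T.z0) (γ 0) (hγ _) (hγ _)

end Pool.Agent.Helper79.NC

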