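import Mathlib

/-!
# Riemannian metrics on a real vector space, geodesics, conjugate points, closed quotients

Statement level definitions for `MP_4787eb_gt`.  A closed Riemannian manifold is presented as a
quotient `M = E/Γ` of a finite dimensional real vector space `E`, with a smooth Riemannian metric
`g`, by a group `Γ` acting freely, properly discontinuously and cocompactly by smooth isometries.
-/

namespace Pool.Agent.Helper79.NC

open scoped ContDiff

section Metric

variable {E : Type*} [NormedAddCommGroup E] [NormedSpace ℝ E]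

/-- A smooth Riemannian metric on the real vector space `E`: a smooth family of symmetric
positive definite bilinear forms on `E`. -/
structure IsRiemannianMetric (g : E → E →L[ℝ] E →L[ℝ] ℝ) : Prop where
  smooth : ContDiff ℝ ∞ g
  symm : ∀ x v w, g x v w = g x w v
  pos : ∀ x v, v ≠ 0 → 0 < g x v v

/-- Geodesics of the metric `g` (parametrised proportionally to arc length, constants allowed):
smooth curves `c : ℝ → E` which solve the geodesic equation, written as the Euler-Lagrange
equation of the energy `½ ∫ g(c', c') dt`: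
`d/dt (g_c(c', e)) = ½ (∂_e g)_c (c', c')` for all vectors `e`. -/
structure IsGeodesic (g : E → E →L[ℝ] E →L[ℝ] ℝ) (c : ℝ → E) : Prop where
  smooth : ContDiff ℝ ∞ c
  eq : ∀ (t : ℝ) (e : E), deriv (fun τ => g (c τ) (deriv c τ) e) t =
    (1 / 2) * fderiv ℝ (fun x => g x (deriv c t) (deriv c t)) (c t) e

/-- `J` is a Jacobi field along the geodesic `c`: the variation field `∂Γ/∂s (0, ·)` of a smooth
one-parameter family `Γ (s, ·)`, `|s| < ε`, of geodesics with `Γ (0, ·) = c`. -/
def IsJacobiField (g : E → E →L[ℝ] E →L[ℝ] ℝ) (c : ℝ → E) (J : ℝ → E) : Prop :=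
  ∃ (ε : ℝ) (V : ℝ → ℝ → E), 0 < ε ∧
    ContDiffOn ℝ ∞ (fun p : ℝ × ℝ => V p.1 p.2) (Set.Ioo (-ε) ε ×ˢ Set.univ) ∧
    (∀ s ∈ Set.Ioo (-ε) ε, IsGeodesic g (V s)) ∧ V 0 = c ∧
    ∀ t, J t = deriv (fun s => V s t) 0

/-- The metric `g` has no conjugate points: along a nonconstant geodesic, a Jacobi field which
vanishes at two distinct parameter values vanishes identically. -/
def NoConjugatePoints (g : E → E →L[ℝ] E →L[ℝ] ℝ) : Prop :=
  ∀ (c J : ℝ → E), IsGeodesic g c → (∃ t, deriv c t ≠ 0) → IsJacobiField g c J →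
    ∀ a b, a ≠ b → J a = 0 → J b = 0 → ∀ t, J t = 0

end Metric

section Quotient

variable {E : Type*} [NormedAddCommGroup E] [NormedSpace ℝ E]
variable (Γ : Type*) [Group Γ] [MulAction Γ E]

/-- `(E, g)` and the action of `Γ` present a closed Riemannian manifold `M = E/Γ`:
`g` is a smooth Riemannian metric on `E`, and `Γ` acts freely, properly discontinuously and
cocompactly by smooth isometries of `g`. -/
structure PresentsClosedManifold (g : E → E →L[ℝ] E →L[ℝ] ℝ) : Prop where
  metric : IsRiemannianMetric g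
  smooth : ∀ γ : Γ, ContDiff ℝ ∞ (fun x : E => γ • x)
  isometry : ∀ (γ : Γ) (x v w : E),
    g (γ • x) (fderiv ℝ (fun y : E => γ • y) x v) (fderiv ℝ (fun y : E => γ • y) x w) = g x v w
  free : ∀ (γ : Γ) (x : E), γ • x = x → γ = 1
  properlyDiscontinuous : ∀ K L : Set E, IsCompact K → IsCompact L →
    {γ : Γ | (((fun x : E => γ • x) '' K) ∩ L).Nonempty}.Finite
  cocompact : CompactSpace (MulAction.orbitRel.Quotient Γ E)

/-- The closed manifold `M = E/Γ` (as a topological space). -/
abbrev QuotM (E : Type*) [NormedAddCommGroup E] [NormedSpace ℝ E]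
    (Γ : Type*) [Group Γ] [MulAction Γ E] : Type _ := MulAction.orbitRel.Quotient Γ E

/-- The projection `E → M = E/Γ`. -/
def proj (x : E) : QuotM E Γ := Quotient.mk _ x

/-- A closed geodesic in `M = E/Γ`: a loop `S¹ = ℝ/ℤ → M` which is the projection of a nonconstant
geodesic `c : ℝ → E` of the metric `g` (so `t ↦ proj (c t)` has period `1`). -/
def IsClosedGeodesic (g : E → E →L[ℝ] E →L[ℝ] ℝ) (γ : C(AddCircle (1 : ℝ), QuotM E Γ)) : Prop :=
  ∃ c : ℝ → E, IsGeodesic g c ∧ (∃ t, deriv c t ≠ 0) ∧
    ∀ t : ℝ, γ (t : AddCircle (1 : ℝ)) = proj Γ (c t)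

/-- Two closed geodesics of `M = E/Γ` are homotopic through closed geodesics: there is a
homotopy `H : [0,1] × S¹ → M` from `γ₀` to `γ₁` all of whose curves `H (s, ·)` are closed
geodesics. -/
def HomotopicThroughClosedGeodesics (g : E → E →L[ℝ] E →L[ℝ] ℝ)
    (γ₀ γ₁ : C(AddCircle (1 : ℝ), QuotM E Γ)) : Prop :=
  ∃ H : ContinuousMap.Homotopy γ₀ γ₁, ∀ s : unitInterval, IsClosedGeodesic Γ g (H.curry s)

end Quotient

end Pool.Agent.Helper79.NC
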