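import Pool.Agent.Helper79.NC.SS
import Pool.Agent.Helper79.NC.Alg

/-!
# Calculus of the certificate in the flat part
-/

set_option maxSynthPendingDepth 3

namespace Pool.Agent.Helper79.NC.Flat

open scoped Topology
open Set Filter

/-- `G = p/(W+q)` -/
theorem hasDerivAt_G {p W q : ℝ → ℝ} {p' W' q' t : ℝ} (hp : HasDerivAt p p' t)
    (hW : HasDerivAt W W' t) (hq : HasDerivAt q q' t) (h0 : W t + q t ≠ 0) :
    HasDerivAt (fun t => p t / (W t + q t))
      ((p' * (W t + q t) - p t * (W' + q')) / (W t + q t) ^ 2) t :=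
  hp.div (hW.add hq) h0

theorem hasDerivAt_Ue {W p gY A B G : ℝ → ℝ} {W' p' gY' A' B' G' t : ℝ}
    (hW : HasDerivAt W W' t) (hp : HasDerivAt p p' t) (hg : HasDerivAt gY gY' t)
    (hA : HasDerivAt A A' t) (hB : HasDerivAt B B' t) (hG : HasDerivAt G G' t)
    (h0 : W t ≠ 0) :
    HasDerivAt (fun t => 2 * gY t * A t / W t - p t * (A t) ^ 2 / (W t) ^ 2
        - (1 / 2) * G t * ((B t) ^ 2 / W t))
      (2 * (gY' * A t + gY t * A') / W t - 2 * gY t * A t * W' / (W t) ^ 2
        - ((p' * (A t) ^ 2 + 2 * p t * A t * A') / (W t) ^ 2 - 2 * p t * (A t) ^ 2 * W' / (W t) ^ 3)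
        - ((1 / 2) * (G' * (B t) ^ 2 + 2 * G t * B t * B') / W t
            - (1 / 2) * G t * (B t) ^ 2 * W' / (W t) ^ 2)) t := by
  have h1 := ((hg.const_mul 2).mul hA).div hW h0
  have h2 := (hp.mul (hA.pow 2)).div (hW.pow 2) (pow_ne_zero 2 h0)
  have h3 := (hG.const_mul (1 / 2)).mul ((hB.pow 2).div hW h0)
  refine ((h1.sub h2).sub h3).congr_deriv ?_
  simp only [Pi.mul_apply, Pi.pow_apply, Pi.div_apply]
  field_simp
  ring

theorem hasDerivAt_Ui {YY G : ℝ → ℝ} {YY' G' t : ℝ}
    (hY : HasDerivAt YY YY' t) (hG : HasDerivAt G G' t) :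
    HasDerivAt (fun t => -(1 / 2) * G t * YY t) (-(1 / 2) * (G' * YY t + G t * YY')) t := by
  refine ((hG.const_mul (-(1 / 2))).mul hY).congr_deriv ?_
  ring

/-- The cut-off `l = max 0 ((16q - W)/(16q))` squared, `q > 0`. -/
theorem hasDerivAt_l2 {q W : ℝ → ℝ} {p t : ℝ} (hq : HasDerivAt q p t)
    (hW : HasDerivAt W (2 * p) t) (h0 : 0 < q t) :
    HasDerivAt (fun t => (max 0 ((16 * q t - W t) / (16 * q t))) ^ 2)
      ((1 / 8) * (max 0 ((16 * q t - W t) / (16 * q t))) * (W t / q t - 2) * (p / q t)) t := by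
  have hφ : ∀ x : ℝ, HasDerivAt (fun x : ℝ => (max 0 x) ^ 2) (2 * max 0 x) x := by
    intro x
    rcases lt_trichotomy x 0 with h | h | h
    · rw [max_eq_left h.le, mul_zero]
      refine (hasDerivAt_const x (0:ℝ)).congr_of_eventuallyEq ?_
      filter_upwards [Iio_mem_nhds h] with y hy
      rw [max_eq_left (le_of_lt hy)]; norm_num
    · subst h
      rw [max_self, mul_zero]
      rw [hasDerivAt_iff_isLittleO_nhds_zero]
      simp only [zero_add, max_self, smul_eq_mul, mul_zero, sub_zero]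
      have : (fun h : ℝ => (max 0 h) ^ 2 - 0 ^ 2) =O[𝓝 0] fun h : ℝ => h ^ 2 := by
        apply Asymptotics.IsBigO.of_bound 1
        filter_upwards with h
        rw [one_mul]
        simp only [Real.norm_eq_abs, abs_pow, sq_abs]
        rcases le_total 0 h with h1 | h1
        · rw [max_eq_right h1]; simp
        · rw [max_eq_left h1]; simp; positivity
      refine this.trans_isLittleO ?_
      have := Asymptotics.isLittleO_pow_id (𝕜 := ℝ) (n := 2) (by norm_num)
      exact this
    · rw [max_eq_right h.le]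
      refine ((hasDerivAt_pow 2 x).congr_deriv (by simp)).congr_of_eventuallyEq ?_
      filter_upwards [Ioi_mem_nhds h] with y hy
      rw [max_eq_right (le_of_lt hy)]
  have h1 : HasDerivAt (fun t => (16 * q t - W t) / (16 * q t))
      (((16 * p - 2 * p) * (16 * q t) - (16 * q t - W t) * (16 * p)) / (16 * q t) ^ 2) t :=
    ((hq.const_mul 16).sub hW).div (hq.const_mul 16) (by positivity)
  refine ((hφ _).comp t h1).congr_deriv ?_
  field_simp
  ring

end Pool.Agent.Helper79.NC.Flat
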