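import Pool.Agent.Helper79.NC.Flat1

/-!
# The certificate in the flat part: derivative and inequality
-/

set_option maxSynthPendingDepth 3

namespace Pool.Agent.Helper79.NC.Flat

open scoped Topology
open Set Filter
open Pool.Agent.Helper79.NC.Alg

/-- Local data at the time `t`. -/
structure LF where
  t : ℝ
  v1 : ℝ → ℝ
  v2 : ℝ → ℝ
  y1 : ℝ → ℝ
  y2 : ℝ → ℝ
  g1 : ℝ → ℝ
  g2 : ℝ → ℝ
  q : ℝ → ℝ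
  Z1 : ℝ
  Z2 : ℝ
  h11 : ℝ
  h12 : ℝ
  h22 : ℝ
  hq : HasDerivAt q (g1 t * v1 t + g2 t * v2 t) t
  hv1 : HasDerivAt v1 (g1 t) t
  hv2 : HasDerivAt v2 (g2 t) t
  hy1 : HasDerivAt y1 Z1 t
  hy2 : HasDerivAt y2 Z2 t
  hg1 : HasDerivAt g1 (h11 * v1 t + h12 * v2 t) t
  hg2 : HasDerivAt g2 (h12 * v1 t + h22 * v2 t) t

namespace LF

variable (L : LF)

def W (s : ℝ) : ℝ := L.v1 s ^ 2 + L.v2 s ^ 2
def p (s : ℝ) : ℝ := L.g1 s * L.v1 s + L.g2 s * L.v2 s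
def gY (s : ℝ) : ℝ := L.g1 s * L.y1 s + L.g2 s * L.y2 s
def A (s : ℝ) : ℝ := L.v1 s * L.y1 s + L.v2 s * L.y2 s
def B (s : ℝ) : ℝ := L.v1 s * L.y2 s - L.v2 s * L.y1 s
def YY (s : ℝ) : ℝ := L.y1 s ^ 2 + L.y2 s ^ 2
noncomputable def G (s : ℝ) : ℝ := L.p s / (L.W s + L.q s)
noncomputable def Ui (s : ℝ) : ℝ := -(1 / 2) * L.G s * L.YY s
noncomputable def Ue (s : ℝ) : ℝ := 2 * L.gY s * L.A s / L.W s - L.p s * (L.A s) ^ 2 / (L.W s) ^ 2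
        - (1 / 2) * L.G s * ((L.B s) ^ 2 / L.W s)
noncomputable def l (s : ℝ) : ℝ := max 0 ((16 * L.q s - L.W s) / (16 * L.q s))

def n : ℝ := L.g1 L.t ^ 2 + L.g2 L.t ^ 2
def r : ℝ := L.g2 L.t * L.v1 L.t - L.g1 L.t * L.v2 L.t
def H (a b : ℝ) : ℝ := L.h11 * a ^ 2 + 2 * L.h12 * a * b + L.h22 * b ^ 2
def Hvv : ℝ := L.H (L.v1 L.t) (L.v2 L.t)
def Hnn : ℝ := L.h11 * L.v2 L.t ^ 2 - 2 * L.h12 * L.v1 L.t * L.v2 L.t + L.h22 * L.v1 L.t ^ 2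
def HYY : ℝ := L.H (L.y1 L.t) (L.y2 L.t)
noncomputable def Gp : ℝ :=
  ((L.Hvv + L.n) * (L.W L.t + L.q L.t) - 3 * L.p L.t ^ 2) / (L.W L.t + L.q L.t) ^ 2

theorem hW : HasDerivAt L.W (2 * L.p L.t) L.t := by
  refine ((L.hv1.pow 2).add (L.hv2.pow 2)).congr_deriv ?_
  simp [p]; ring

theorem hp : HasDerivAt L.p (L.Hvv + L.n) L.t := by
  refine ((L.hg1.mul L.hv1).add (L.hg2.mul L.hv2)).congr_deriv ?_
  simp [Hvv, H, n]; ring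

theorem hgY : HasDerivAt L.gY (L.h11 * L.v1 L.t * L.y1 L.t
    + L.h12 * (L.v1 L.t * L.y2 L.t + L.v2 L.t * L.y1 L.t) + L.h22 * L.v2 L.t * L.y2 L.t
    + (L.g1 L.t * L.Z1 + L.g2 L.t * L.Z2)) L.t := by
  refine ((L.hg1.mul L.hy1).add (L.hg2.mul L.hy2)).congr_deriv ?_
  ring

theorem hA : HasDerivAt L.A (L.g1 L.t * L.y1 L.t + L.g2 L.t * L.y2 L.t
    + (L.v1 L.t * L.Z1 + L.v2 L.t * L.Z2)) L.t := by
  refine ((L.hv1.mul L.hy1).add (L.hv2.mul L.hy2)).congr_deriv ?_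
  ring

theorem hB : HasDerivAt L.B ((L.g1 L.t * L.y2 L.t - L.g2 L.t * L.y1 L.t)
    + (L.v1 L.t * L.Z2 - L.v2 L.t * L.Z1)) L.t := by
  refine ((L.hv1.mul L.hy2).sub (L.hv2.mul L.hy1)).congr_deriv ?_
  ring

theorem hYY : HasDerivAt L.YY (2 * (L.y1 L.t * L.Z1 + L.y2 L.t * L.Z2)) L.t := by
  refine ((L.hy1.pow 2).add (L.hy2.pow 2)).congr_deriv ?_
  simp; ring

theorem hG (h0 : L.W L.t + L.q L.t ≠ 0) : HasDerivAt L.G L.Gp L.t := by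
  refine (hasDerivAt_G L.hp L.hW L.hq h0).congr_deriv ?_
  simp only [Gp]
  congr 1
  simp only [p]
  ring

theorem hUi (h0 : L.W L.t + L.q L.t ≠ 0) : HasDerivAt L.Ui
    (-(1 / 2) * (L.Gp * L.YY L.t + L.G L.t * (2 * (L.y1 L.t * L.Z1 + L.y2 L.t * L.Z2)))) L.t :=
  hasDerivAt_Ui L.hYY (L.hG h0)

/-- completing the square, isotropic certificate -/
theorem sq_Ui : L.HYY + (L.Gp / 2 - L.G L.t ^ 2 / 4) * L.YY L.t ≤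
    L.Z1 ^ 2 + L.Z2 ^ 2 + L.HYY
      - (-(1 / 2) * (L.Gp * L.YY L.t + L.G L.t * (2 * (L.y1 L.t * L.Z1 + L.y2 L.t * L.Z2)))) := by
  have : L.Z1 ^ 2 + L.Z2 ^ 2 + L.HYY
      - (-(1 / 2) * (L.Gp * L.YY L.t + L.G L.t * (2 * (L.y1 L.t * L.Z1 + L.y2 L.t * L.Z2))))
      = L.HYY + (L.Gp / 2 - L.G L.t ^ 2 / 4) * L.YY L.t
        + ((L.Z1 + (1/2) * L.G L.t * L.y1 L.t) ^ 2 + (L.Z2 + (1/2) * L.G L.t * L.y2 L.t) ^ 2) := by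
    simp only [YY]; ring
  rw [this]
  have := add_nonneg (sq_nonneg (L.Z1 + (1/2) * L.G L.t * L.y1 L.t))
    (sq_nonneg (L.Z2 + (1/2) * L.G L.t * L.y2 L.t))
  linarith

/-- the derivative of the exact certificate -/
noncomputable def Uep : ℝ :=
  2*((L.h11*L.v1 L.t*L.y1 L.t+L.h12*(L.v1 L.t*L.y2 L.t+L.v2 L.t*L.y1 L.t)
      +L.h22*L.v2 L.t*L.y2 L.t + (L.g1 L.t*L.Z1+L.g2 L.t*L.Z2))
        *(L.v1 L.t*L.y1 L.t+L.v2 L.t*L.y2 L.t)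
            + (L.g1 L.t*L.y1 L.t+L.g2 L.t*L.y2 L.t)*(L.g1 L.t*L.y1 L.t+L.g2 L.t*L.y2 L.t
              + (L.v1 L.t*L.Z1+L.v2 L.t*L.Z2)))/L.W L.t
        - 4*(L.g1 L.t*L.v1 L.t+L.g2 L.t*L.v2 L.t)*(L.g1 L.t*L.y1 L.t+L.g2 L.t*L.y2 L.t)
          *(L.v1 L.t*L.y1 L.t+L.v2 L.t*L.y2 L.t)/L.W L.t^2
        - ((L.h11*L.v1 L.t^2+2*L.h12*L.v1 L.t*L.v2 L.t+L.h22*L.v2 L.t^2
            + (L.g1 L.t^2+L.g2 L.t^2))*(L.v1 L.t*L.y1 L.t+L.v2 L.t*L.y2 L.t)^2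
            + 2*(L.g1 L.t*L.v1 L.t+L.g2 L.t*L.v2 L.t)*(L.v1 L.t*L.y1 L.t+L.v2 L.t*L.y2 L.t)
              *(L.g1 L.t*L.y1 L.t+L.g2 L.t*L.y2 L.t + (L.v1 L.t*L.Z1+L.v2 L.t*L.Z2)))/L.W L.t^2
        + 4*(L.g1 L.t*L.v1 L.t+L.g2 L.t*L.v2 L.t)^2*(L.v1 L.t*L.y1 L.t+L.v2 L.t*L.y2 L.t)^2
            /L.W L.t^3
        - (1/2)*(L.Gp*(L.v1 L.t*L.y2 L.t-L.v2 L.t*L.y1 L.t)^2
            + 2*L.G L.t*(L.v1 L.t*L.y2 L.t-L.v2 L.t*L.y1 L.t)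
              *((L.g1 L.t*L.y2 L.t-L.g2 L.t*L.y1 L.t)+(L.v1 L.t*L.Z2-L.v2 L.t*L.Z1)))/L.W L.t
        + L.G L.t*(L.g1 L.t*L.v1 L.t+L.g2 L.t*L.v2 L.t)*(L.v1 L.t*L.y2 L.t-L.v2 L.t*L.y1 L.t)^2
            /L.W L.t^2

theorem hUe (h0 : L.W L.t + L.q L.t ≠ 0) (hW0 : L.W L.t ≠ 0) : HasDerivAt L.Ue L.Uep L.t := by
  refine (hasDerivAt_Ue L.hW L.hp L.hgY L.hA L.hB (L.hG h0) hW0).congr_deriv ?_
  have e1 : L.p L.t = L.g1 L.t*L.v1 L.t+L.g2 L.t*L.v2 L.t := rfl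
  have e2 : L.gY L.t = L.g1 L.t*L.y1 L.t+L.g2 L.t*L.y2 L.t := rfl
  have e3 : L.A L.t = L.v1 L.t*L.y1 L.t+L.v2 L.t*L.y2 L.t := rfl
  have e4 : L.B L.t = L.v1 L.t*L.y2 L.t-L.v2 L.t*L.y1 L.t := rfl
  have e5 : L.Hvv = L.h11*L.v1 L.t^2+2*L.h12*L.v1 L.t*L.v2 L.t+L.h22*L.v2 L.t^2 := rfl
  have e6 : L.n = L.g1 L.t^2+L.g2 L.t^2 := rfl
  unfold Uep
  rw [← e1, ← e2, ← e3, ← e4, ← e5, ← e6]
  field_simp
  ring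

theorem sq_Ue (hW0 : L.W L.t ≠ 0) :
    (L.Hnn / L.W L.t - 3 * L.r ^ 2 / L.W L.t ^ 2 + (L.Gp / 2 - L.G L.t ^ 2 / 4))
      * (L.B L.t ^ 2 / L.W L.t) ≤ L.Z1 ^ 2 + L.Z2 ^ 2 + L.HYY - L.Uep := by
  have h := id_e (L.v1 L.t) (L.v2 L.t) (L.y1 L.t) (L.y2 L.t) L.Z1 L.Z2 (L.g1 L.t) (L.g2 L.t)
    L.h11 L.h12 L.h22 (L.G L.t) L.Gp (L.W L.t) rfl hW0
  have e : L.Z1 ^ 2 + L.Z2 ^ 2 + L.HYY - L.Uep = _ := h
  rw [e]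
  have e2 : (L.Hnn / L.W L.t - 3 * L.r ^ 2 / L.W L.t ^ 2 + (L.Gp / 2 - L.G L.t ^ 2 / 4))
      * (L.B L.t ^ 2 / L.W L.t)
     = ((L.h11*L.v2 L.t^2-2*L.h12*L.v1 L.t*L.v2 L.t+L.h22*L.v1 L.t^2)/L.W L.t
        - 3*(L.g2 L.t*L.v1 L.t-L.g1 L.t*L.v2 L.t)^2/L.W L.t^2 + (1/2)*L.Gp - (1/4)*L.G L.t^2)
          * (L.v1 L.t*L.y2 L.t-L.v2 L.t*L.y1 L.t)^2/L.W L.t := by
    simp only [Hnn, r, B]
    ring
  rw [e2]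
  have := add_nonneg (sq_nonneg (L.Z1 - ((L.g1 L.t*(L.v1 L.t*L.y1 L.t+L.v2 L.t*L.y2 L.t)
      +L.v1 L.t*(L.g1 L.t*L.y1 L.t+L.g2 L.t*L.y2 L.t))/L.W L.t
      - (L.g1 L.t*L.v1 L.t+L.g2 L.t*L.v2 L.t)*L.v1 L.t*(L.v1 L.t*L.y1 L.t+L.v2 L.t*L.y2 L.t)
          /L.W L.t^2
          + (1/2)*L.G L.t*(L.v1 L.t*L.y2 L.t-L.v2 L.t*L.y1 L.t)/L.W L.t*L.v2 L.t)))
    (sq_nonneg (L.Z2 - ((L.g2 L.t*(L.v1 L.t*L.y1 L.t+L.v2 L.t*L.y2 L.t)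
      +L.v2 L.t*(L.g1 L.t*L.y1 L.t+L.g2 L.t*L.y2 L.t))/L.W L.t
      - (L.g1 L.t*L.v1 L.t+L.g2 L.t*L.v2 L.t)*L.v2 L.t*(L.v1 L.t*L.y1 L.t+L.v2 L.t*L.y2 L.t)
          /L.W L.t^2
          - (1/2)*L.G L.t*(L.v1 L.t*L.y2 L.t-L.v2 L.t*L.y1 L.t)/L.W L.t*L.v1 L.t)))
  linarith

end LF

/-- Case `W > 2q > 0`. -/
theorem caseB (L : LF) {ζ : ℝ → ℝ} {ε η : ℝ} (hq : 0 < L.q L.t) (hWq : 2 * L.q L.t < L.W L.t)
    (hζ : HasDerivAt ζ (-ε * (L.p L.t / L.q L.t)) L.t) (hζ0 : 0 ≤ ζ L.t) (hζ1 : ζ L.t ≤ 1)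
    (hε : 0 ≤ ε) (hη : 0 ≤ η) (hεη : ε ≤ 0.01 * ζ L.t + η / 2)
    (hcrit : ∀ a b : ℝ, (L.g1 L.t * a + L.g2 L.t * b) ^ 2
      - (1 / 1000) * L.n * (a ^ 2 + b ^ 2) ≤ L.q L.t * L.H a b)
    (hS : ∀ a b : ℝ, η * L.n * (a ^ 2 + b ^ 2) ≤ (1 - ζ L.t) * (L.q L.t * L.H a b)) :
    ∃ d : ℝ, HasDerivAt (fun s => ζ s * ((L.l s) ^ 2 * L.Ui s + (1 - (L.l s) ^ 2) * L.Ue s)) d L.t
      ∧ d ≤ L.Z1 ^ 2 + L.Z2 ^ 2 + L.HYY := by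
  have hW0 : 0 < L.W L.t := by linarith
  have hWqn : L.W L.t + L.q L.t ≠ 0 := by positivity
  set z := L.W L.t / L.q L.t with hz
  have hl2 := hasDerivAt_l2 (q := L.q) (W := L.W) (p := L.p L.t) L.hq L.hW hq
  have hUi := L.hUi hWqn
  have hUe := L.hUe hWqn hW0.ne'
  set lp := (1 / 8) * (max 0 ((16 * L.q L.t - L.W L.t) / (16 * L.q L.t)))
    * (L.W L.t / L.q L.t - 2) * (L.p L.t / L.q L.t) with hlp
  set Uip := -(1 / 2) * (L.Gp * L.YY L.t + L.G L.t * (2 * (L.y1 L.t * L.Z1 + L.y2 L.t * L.Z2)))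
    with hUip
  have hl2' : HasDerivAt (fun s => (L.l s) ^ 2) lp L.t := hl2
  have hd := hζ.mul ((hl2'.mul hUi).add ((hl2'.const_sub 1).mul hUe))
  refine ⟨_, hd, ?_⟩
  simp only [Pi.add_apply, Pi.mul_apply]
  have s1 := L.sq_Ui
  have s2 := L.sq_Ue hW0.ne'
  rw [← hUip] at s1
  have hl0 : 0 ≤ L.l L.t := le_max_left _ _
  have hl1 : L.l L.t ≤ 1 := by
    apply max_le zero_le_one
    rw [div_le_one (by positivity)]; linarith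
  have hll : 0 ≤ 1 - L.l L.t ^ 2 := by nlinarith
  have hl_eq : L.l L.t = max 0 (1 - z / 16) := by
    unfold LF.l
    congr 1
    rw [hz]; field_simp
  have hM := mainB (L.q L.t) z (L.W L.t) (L.p L.t ^ 2 / L.W L.t) (L.r ^ 2 / L.W L.t) L.n
    (L.p L.t) L.r (L.A L.t) (L.B L.t) L.HYY L.Hvv L.Hnn (L.gY L.t) (ζ L.t) ε η (L.l L.t)
    (L.YY L.t) (L.G L.t) L.Gp hq (by rw [hz, lt_div_iff₀ hq]; exact hWq)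
    (by rw [hz]; field_simp) (by positivity) (by positivity)
    (by
      rw [← add_div, eq_div_iff hW0.ne']
      simp only [LF.n, LF.W, LF.p, LF.r]; ring)
    (by field_simp) (by field_simp)
    (by simp only [LF.gY, LF.W, LF.p, LF.r, LF.A, LF.B]; ring)
    hl_eq
    (by simp only [LF.YY, LF.W, LF.A, LF.B]; ring)
    (by
      have := hcrit (L.v1 L.t) (L.v2 L.t)
      exact this)
    (by
      have := hcrit (-(L.v2 L.t)) (L.v1 L.t)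
      have e : L.H (-(L.v2 L.t)) (L.v1 L.t) = L.Hnn := by simp only [LF.H, LF.Hnn]; ring
      rw [e] at this
      have e2 : (L.g1 L.t * -(L.v2 L.t) + L.g2 L.t * L.v1 L.t) ^ 2 = L.r ^ 2 := by
        simp only [LF.r]; ring
      have e3 : (-(L.v2 L.t)) ^ 2 + (L.v1 L.t) ^ 2 = L.W L.t := by simp only [LF.W]; ring
      rw [e2, e3] at this
      exact this)
    (hcrit _ _) (hS _ _) hζ0 hε hη hεη rfl rfl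
  have a1 : ζ L.t * L.l L.t ^ 2 * (L.HYY + (L.Gp / 2 - L.G L.t ^ 2 / 4) * L.YY L.t)
      ≤ ζ L.t * L.l L.t ^ 2 * (L.Z1 ^ 2 + L.Z2 ^ 2 + L.HYY - Uip) := by gcongr
  have a2 : ζ L.t * (1 - L.l L.t ^ 2) * ((L.Hnn / L.W L.t - 3 * L.r ^ 2 / L.W L.t ^ 2
        + (L.Gp / 2 - L.G L.t ^ 2 / 4)) * (L.B L.t ^ 2 / L.W L.t))
      ≤ ζ L.t * (1 - L.l L.t ^ 2) * (L.Z1 ^ 2 + L.Z2 ^ 2 + L.HYY - L.Uep) := by gcongr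
  have a3 : 0 ≤ (1 - ζ L.t) * (L.Z1 ^ 2 + L.Z2 ^ 2) := by
    have : 0 ≤ 1 - ζ L.t := by linarith
    positivity
  have e1 : L.Ui L.t = -(1 / 2) * L.G L.t * L.YY L.t := rfl
  have e2 : L.Ue L.t = 2 * L.gY L.t * L.A L.t / L.W L.t - L.p L.t * (L.A L.t) ^ 2 / (L.W L.t) ^ 2
        - (1 / 2) * L.G L.t * ((L.B L.t) ^ 2 / L.W L.t) := rfl
  rw [← e1, ← e2] at hM
  have e3 : (1 / 8) * L.l L.t * (z - 2) * (L.p L.t / L.q L.t) = lp := rfl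
  rw [e3] at hM
  nlinarith [hM, a1, a2, a3]

/-- Case `W ≤ 2q`, `q > 0`. -/
theorem caseA (L : LF) {ζ : ℝ → ℝ} {ε η : ℝ} (hq : 0 < L.q L.t) (hWq : L.W L.t ≤ 2 * L.q L.t)
    (hζ : HasDerivAt ζ (-ε * (L.p L.t / L.q L.t)) L.t) (hζ0 : 0 ≤ ζ L.t) (hζ1 : ζ L.t ≤ 1)
    (hε : 0 ≤ ε) (hη : 0 ≤ η) (hεη : ε ≤ 0.01 * ζ L.t + η / 2)
    (hcrit : ∀ a b : ℝ, (L.g1 L.t * a + L.g2 L.t * b) ^ 2
      - (1 / 1000) * L.n * (a ^ 2 + b ^ 2) ≤ L.q L.t * L.H a b)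
    (hS : ∀ a b : ℝ, η * L.n * (a ^ 2 + b ^ 2) ≤ (1 - ζ L.t) * (L.q L.t * L.H a b)) :
    ∃ d : ℝ, HasDerivAt (fun s => ζ s * L.Ui s) d L.t
      ∧ d ≤ L.Z1 ^ 2 + L.Z2 ^ 2 + L.HYY := by
  have hW0 : 0 ≤ L.W L.t := by simp only [LF.W]; positivity
  have hWqn : L.W L.t + L.q L.t ≠ 0 := by positivity
  have hUi := L.hUi hWqn
  have hn0 : 0 ≤ L.n := by simp only [LF.n]; positivity
  set Uip := -(1 / 2) * (L.Gp * L.YY L.t + L.G L.t * (2 * (L.y1 L.t * L.Z1 + L.y2 L.t * L.Z2)))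
    with hUip
  refine ⟨_, hζ.mul hUi, ?_⟩
  have hpn : L.p L.t ^ 2 + L.r ^ 2 = L.n * L.W L.t := by
    simp only [LF.n, LF.W, LF.p, LF.r]; ring
  -- the constant c
  obtain ⟨c, hc0, hcn, hc⟩ : ∃ c : ℝ, 0 ≤ c ∧ c ≤ L.n ∧ L.p L.t ^ 2 = c * L.W L.t := by
    rcases eq_or_lt_of_le hW0 with h | h
    · refine ⟨0, le_rfl, hn0, ?_⟩
      rw [← h, mul_zero] at hpn ⊢
      have := sq_nonneg (L.p L.t)
      have := sq_nonneg L.r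
      linarith
    · refine ⟨L.p L.t ^ 2 / L.W L.t, by positivity, ?_, by field_simp⟩
      rw [div_le_iff₀ h]
      have := sq_nonneg L.r
      linarith
  have hM := mainA (L.q L.t) (L.W L.t / L.q L.t) (L.W L.t) c L.n
    (L.p L.t) L.HYY L.Hvv (ζ L.t) ε η (L.YY L.t) (L.G L.t) L.Gp hq (by positivity)
    (by rw [div_le_iff₀ hq]; exact hWq) (by field_simp) hc0 hcn hc
    (by simp only [LF.YY]; positivity)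
    (hcrit (L.v1 L.t) (L.v2 L.t))
    (by
      have h1 := hcrit (L.y1 L.t) (L.y2 L.t)
      have h2 := sq_nonneg (L.g1 L.t * L.y1 L.t + L.g2 L.t * L.y2 L.t)
      have h3 : -(1/1000) * L.n * L.YY L.t
        = - ((1/1000) * L.n * (L.y1 L.t ^ 2 + L.y2 L.t ^ 2)) := by simp only [LF.YY]; ring
      rw [h3]
      have h4 : L.q L.t * L.HYY = L.q L.t * L.H (L.y1 L.t) (L.y2 L.t) := rfl
      rw [h4]; linarith)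
    (hS _ _) hζ0 hε hη hεη rfl rfl
  -- completing the square
  have e1 : L.Ui L.t = -(1 / 2) * L.G L.t * L.YY L.t := rfl
  rw [← e1] at hM
  have key : L.Z1 ^ 2 + L.Z2 ^ 2 + L.HYY - (-ε * (L.p L.t / L.q L.t) * L.Ui L.t + ζ L.t * Uip)
      = (L.Z1 + (1/2) * ζ L.t * L.G L.t * L.y1 L.t) ^ 2
        + (L.Z2 + (1/2) * ζ L.t * L.G L.t * L.y2 L.t) ^ 2
        + (L.HYY + ζ L.t * (L.Gp / 2 - L.G L.t ^ 2 / 4) * L.YY L.t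
            + ε * (L.p L.t / L.q L.t) * L.Ui L.t)
        + (1/4) * ζ L.t * (1 - ζ L.t) * (L.G L.t ^ 2 * L.YY L.t) := by
    rw [hUip]
    simp only [LF.YY]; ring
  have p1 : 0 ≤ (1/4) * ζ L.t * (1 - ζ L.t) * (L.G L.t ^ 2 * L.YY L.t) := by
    have : 0 ≤ 1 - ζ L.t := by linarith
    have : 0 ≤ L.YY L.t := by simp only [LF.YY]; positivity
    positivity
  have p2 := sq_nonneg (L.Z1 + (1/2) * ζ L.t * L.G L.t * L.y1 L.t)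
  have p3 := sq_nonneg (L.Z2 + (1/2) * ζ L.t * L.G L.t * L.y2 L.t)
  linarith

/-- Case `W > 2q`, `q = 0` (at a zero of the potential). -/
theorem caseB0 (L : LF) (hq : L.q L.t = 0) (hWq : 0 < L.W L.t)
    (hg1 : L.g1 L.t = 0) (hg2 : L.g2 L.t = 0) (hH : ∀ a b : ℝ, 0 ≤ L.H a b) :
    ∃ d : ℝ, HasDerivAt L.Ue d L.t ∧ d ≤ L.Z1 ^ 2 + L.Z2 ^ 2 + L.HYY := by
  have hWqn : L.W L.t + L.q L.t ≠ 0 := by rw [hq, add_zero]; exact hWq.ne'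
  refine ⟨_, L.hUe hWqn hWq.ne', ?_⟩
  have s2 := L.sq_Ue hWq.ne'
  have hr : L.r = 0 := by simp only [LF.r, hg1, hg2]; ring
  have hp : L.p L.t = 0 := by simp only [LF.p, hg1, hg2]; ring
  have hG : L.G L.t = 0 := by simp only [LF.G, hp]; simp
  have hn : L.n = 0 := by simp only [LF.n, hg1, hg2]; ring
  have hGp : 0 ≤ L.Gp := by
    simp only [LF.Gp, hn, hp, hq]
    have : 0 ≤ L.Hvv := hH _ _
    have e : ((L.Hvv + 0) * (L.W L.t + 0) - 3 * 0 ^ 2) / (L.W L.t + 0) ^ 2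
      = L.Hvv * L.W L.t / (L.W L.t) ^ 2 := by ring_nf
    rw [e]; positivity
  have hHnn : 0 ≤ L.Hnn := by
    have := hH (-(L.v2 L.t)) (L.v1 L.t)
    have e : L.H (-(L.v2 L.t)) (L.v1 L.t) = L.Hnn := by simp only [LF.H, LF.Hnn]; ring
    rwa [e] at this
  have : 0 ≤ (L.Hnn / L.W L.t - 3 * L.r ^ 2 / L.W L.t ^ 2 + (L.Gp / 2 - L.G L.t ^ 2 / 4))
      * (L.B L.t ^ 2 / L.W L.t) := by
    rw [hr, hG]
    have e : (L.Hnn / L.W L.t - 3 * 0 ^ 2 / L.W L.t ^ 2 + (L.Gp / 2 - 0 ^ 2 / 4))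
      = L.Hnn / L.W L.t + L.Gp / 2 := by ring_nf
    rw [e]; positivity
  linarith

end Pool.Agent.Helper79.NC.Flat
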