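import Pool.Agent.Helper79.NC.Flat2

/-!
# The certificate in the flat part: geodesics and Jacobi fields
-/

set_option maxSynthPendingDepth 3
set_option maxHeartbeats 4000000

namespace Pool.Agent.Helper79.NC.Flat

open scoped Topology ContDiff
open Set Filter

section Calc

variable {c J : ℝ → E3}

theorem hasDerivAt_of_smooth {E : Type*} [NormedAddCommGroup E] [NormedSpace ℝ E] {f : ℝ → E}
    (hf : ContDiff ℝ ∞ f) (t : ℝ) : HasDerivAt f (deriv f t) t :=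
  (hf.differentiable (by simp) t).hasDerivAt

theorem smooth_deriv {E : Type*} [NormedAddCommGroup E] [NormedSpace ℝ E] {f : ℝ → E}
    (hf : ContDiff ℝ ∞ f) : ContDiff ℝ ∞ (deriv f) := (contDiff_infty_iff_deriv.mp hf).2

theorem hasDerivAt_fst {f : ℝ → E3} {f' : E3} {t : ℝ} (hf : HasDerivAt f f' t) :
    HasDerivAt (fun s => (f s).1) f'.1 t :=
  (ContinuousLinearMap.fst ℝ ℂ ℝ).hasFDerivAt.comp_hasDerivAt t hf

theorem hasDerivAt_snd {f : ℝ → E3} {f' : E3} {t : ℝ} (hf : HasDerivAt f f' t) :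
    HasDerivAt (fun s => (f s).2) f'.2 t :=
  (ContinuousLinearMap.snd ℝ ℂ ℝ).hasFDerivAt.comp_hasDerivAt t hf

theorem hasDerivAt_re {f : ℝ → ℂ} {f' : ℂ} {t : ℝ} (hf : HasDerivAt f f' t) :
    HasDerivAt (fun s => (f s).re) f'.re t :=
  Complex.reCLM.hasFDerivAt.comp_hasDerivAt t hf

theorem hasDerivAt_im {f : ℝ → ℂ} {f' : ℂ} {t : ℝ} (hf : HasDerivAt f f' t) :
    HasDerivAt (fun s => (f s).im) f'.im t :=
  Complex.imCLM.hasFDerivAt.comp_hasDerivAt t hf

/-- expansion of a real linear map on `ℂ` -/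
theorem clm_expand (φ : ℂ →L[ℝ] ℝ) (X : ℂ) : φ X = X.re * φ 1 + X.im * φ Complex.I := by
  have : X = X.re • (1 : ℂ) + X.im • Complex.I := by
    apply Complex.ext <;> simp
  calc φ X = φ (X.re • (1 : ℂ) + X.im • Complex.I) := by rw [← this]
    _ = _ := by rw [map_add, map_smul, map_smul]; rfl

theorem symm_snd (T : TubeData) (w : ℂ) : fderiv ℝ (fderiv ℝ T.Φ) w Complex.I 1
        = fderiv ℝ (fderiv ℝ T.Φ) w 1 Complex.I := by
  have h2i : (2 : WithTop ℕ∞) ≤ ∞ := WithTop.coe_le_coe.mpr (le_top : (2 : ℕ∞) ≤ ⊤)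
  exact (T.hΦ.contDiffAt.isSymmSndFDerivAt (by simpa using h2i)) Complex.I 1

theorem clm2_expand (φ : ℂ →L[ℝ] ℂ →L[ℝ] ℝ) (X Y : ℂ) :
    φ X Y = X.re * Y.re * φ 1 1 + X.re * Y.im * φ 1 Complex.I + X.im * Y.re * φ Complex.I 1
      + X.im * Y.im * φ Complex.I Complex.I := by
  have hX : X = X.re • (1 : ℂ) + X.im • Complex.I := by
    apply Complex.ext <;> simp
  have h1 : φ X Y = X.re * φ 1 Y + X.im * φ Complex.I Y := by
    calc φ X Y = φ (X.re • (1 : ℂ) + X.im • Complex.I) Y := by rw [← hX]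
      _ = _ := by rw [map_add, map_smul, map_smul]; rfl
  rw [h1, clm_expand (φ 1) Y, clm_expand (φ Complex.I) Y]
  ring

end Calc

/-- The local functions attached to a geodesic and a Jacobi field. -/
noncomputable def mkLF (T : TubeData) (c J : ℝ → E3) (C : ℝ) (t : ℝ)
    (hc : ContDiff ℝ ∞ c) (hJ : ContDiff ℝ ∞ J)
    (h3 : ∀ e : ℂ, dot (deriv (deriv c) t).1 e = C ^ 2 * fderiv ℝ T.Φ (c t).1 e) : LF where
  t := t
  v1 s := (deriv c s).1.re
  v2 s := (deriv c s).1.im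
  y1 s := (J s).1.re
  y2 s := (J s).1.im
  g1 s := C ^ 2 * fderiv ℝ T.Φ (c s).1 1
  g2 s := C ^ 2 * fderiv ℝ T.Φ (c s).1 Complex.I
  q s := C ^ 2 * T.Φ (c s).1
  Z1 := (deriv J t).1.re
  Z2 := (deriv J t).1.im
  h11 := C ^ 2 * fderiv ℝ (fderiv ℝ T.Φ) (c t).1 1 1
  h12 := C ^ 2 * fderiv ℝ (fderiv ℝ T.Φ) (c t).1 1 Complex.I
  h22 := C ^ 2 * fderiv ℝ (fderiv ℝ T.Φ) (c t).1 Complex.I Complex.I
  hq := by
    have h1 := hasDerivAt_fst (hasDerivAt_of_smooth hc t)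
    have h2 : HasFDerivAt T.Φ (fderiv ℝ T.Φ (c t).1) (c t).1 :=
      (T.hΦ.differentiable (by simp) _).hasFDerivAt
    refine ((h2.comp_hasDerivAt t h1).const_mul (C ^ 2)).congr_deriv ?_
    rw [clm_expand]
    ring
  hv1 := by
    have h1 := hasDerivAt_re (hasDerivAt_fst (hasDerivAt_of_smooth (smooth_deriv hc) t))
    refine h1.congr_deriv ?_
    have := h3 1
    simpa [dot] using this
  hv2 := by
    have h1 := hasDerivAt_im (hasDerivAt_fst (hasDerivAt_of_smooth (smooth_deriv hc) t))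
    refine h1.congr_deriv ?_
    have := h3 Complex.I
    simpa [dot] using this
  hy1 := hasDerivAt_re (hasDerivAt_fst (hasDerivAt_of_smooth hJ t))
  hy2 := hasDerivAt_im (hasDerivAt_fst (hasDerivAt_of_smooth hJ t))
  hg1 := by
    have h1 := hasDerivAt_fst (hasDerivAt_of_smooth hc t)
    have h2 : HasFDerivAt (fderiv ℝ T.Φ) (fderiv ℝ (fderiv ℝ T.Φ) (c t).1) (c t).1 :=
      ((T.hΦ.fderiv_right (m := ∞) (by simp)).differentiable (by simp) _).hasFDerivAt
    have h4 := ((h2.comp_hasDerivAt t h1).clm_apply (hasDerivAt_const t (1:ℂ))).const_mul (C ^ 2)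
    refine h4.congr_deriv ?_
    have hs := symm_snd T (c t).1
    simp only [map_zero, add_zero]
    rw [clm2_expand, hs]
    simp only [Complex.one_re, Complex.one_im]
    ring
  hg2 := by
    have h1 := hasDerivAt_fst (hasDerivAt_of_smooth hc t)
    have h2 : HasFDerivAt (fderiv ℝ T.Φ) (fderiv ℝ (fderiv ℝ T.Φ) (c t).1) (c t).1 :=
      ((T.hΦ.fderiv_right (m := ∞) (by simp)).differentiable (by simp) _).hasFDerivAt
    have h4 := ((h2.comp_hasDerivAt t h1).clm_apply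
      (hasDerivAt_const t Complex.I)).const_mul (C ^ 2)
    refine h4.congr_deriv ?_
    simp only [map_zero, add_zero]
    rw [clm2_expand]
    simp only [Complex.I_re, Complex.I_im]
    ring

section

variable (T : TubeData) (c J : ℝ → E3) (C : ℝ) (t : ℝ)
    (hc : ContDiff ℝ ∞ c) (hJ : ContDiff ℝ ∞ J)
    (h3 : ∀ e : ℂ, dot (deriv (deriv c) t).1 e = C ^ 2 * fderiv ℝ T.Φ (c t).1 e)

theorem cert_eq (s : ℝ) : cert T.Φ C (c s).1 (deriv c s).1 (J s).1 =
    if (mkLF T c J C t hc hJ h3).W s ≤ 2 * (mkLF T c J C t hc hJ h3).q s then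
      (mkLF T c J C t hc hJ h3).Ui s else
      (mkLF T c J C t hc hJ h3).l s ^ 2 * (mkLF T c J C t hc hJ h3).Ui s
        + (1 - (mkLF T c J C t hc hJ h3).l s ^ 2) * (mkLF T c J C t hc hJ h3).Ue s := by
  have hW : (mkLF T c J C t hc hJ h3).W s = Complex.normSq (deriv c s).1 := by
    simp only [LF.W, mkLF, Complex.normSq_apply]; ring
  have hp : (mkLF T c J C t hc hJ h3).p s = C ^ 2 * fderiv ℝ T.Φ (c s).1 (deriv c s).1 := by
    simp only [LF.p, mkLF]; rw [clm_expand _ (deriv c s).1]; ring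
  have hgY : (mkLF T c J C t hc hJ h3).gY s = C ^ 2 * fderiv ℝ T.Φ (c s).1 (J s).1 := by
    simp only [LF.gY, mkLF]; rw [clm_expand _ (J s).1]; ring
  have hA : (mkLF T c J C t hc hJ h3).A s = dot (deriv c s).1 (J s).1 := by
    simp only [LF.A, mkLF, dot]
  have hB : (mkLF T c J C t hc hJ h3).B s = crs (deriv c s).1 (J s).1 := by
    simp only [LF.B, mkLF, crs]
  have hYY : (mkLF T c J C t hc hJ h3).YY s = Complex.normSq (J s).1 := by
    simp only [LF.YY, mkLF, Complex.normSq_apply]; ring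
  have hq : (mkLF T c J C t hc hJ h3).q s = C ^ 2 * T.Φ (c s).1 := rfl
  unfold cert LF.Ui LF.Ue LF.l LF.G
  rw [hW, hp, hgY, hA, hB, hYY, hq]

end

/-- `HYY` -/
theorem mkLF_H (T : TubeData) (c J : ℝ → E3) (C : ℝ) (t : ℝ)
    (hc : ContDiff ℝ ∞ c) (hJ : ContDiff ℝ ∞ J)
    (h3 : ∀ e : ℂ, dot (deriv (deriv c) t).1 e = C ^ 2 * fderiv ℝ T.Φ (c t).1 e) (X : ℂ) :
    (mkLF T c J C t hc hJ h3).H X.re X.im
      = C ^ 2 * fderiv ℝ (fderiv ℝ T.Φ) (c t).1 X X := by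
  have hs := symm_snd T (c t).1
  rw [clm2_expand, hs]
  simp only [LF.H, mkLF]
  ring

/-- derivative of `DF` in terms of `DΦ`. -/
theorem fderiv_F (T : TubeData) (w X : ℂ) :
    fderiv ℝ T.F w X = 2 * T.F w ^ 2 * fderiv ℝ T.Φ w X := by
  have h2 : HasFDerivAt T.Φ (fderiv ℝ T.Φ w) w :=
      (T.hΦ.differentiable (by simp) _).hasFDerivAt
  have h0 : T.κ - 2 * T.Φ w ≠ 0 := (T.κ_pos w).ne'
  have h3 : HasFDerivAt (fun w => T.κ - 2 * T.Φ w) (-((2:ℝ) • fderiv ℝ T.Φ w)) w :=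
    (h2.const_mul 2).const_sub T.κ
  have h4 : HasFDerivAt T.F ((-((T.κ - 2 * T.Φ w) ^ 2)⁻¹) • (-((2:ℝ) • fderiv ℝ T.Φ w))) w := by
    have := (hasDerivAt_inv h0).comp_hasFDerivAt w h3
    have e : T.F = (fun y : ℝ => y⁻¹) ∘ fun w => T.κ - 2 * T.Φ w := by
      funext w; simp [TubeData.F]
    rw [e]
    exact this
  rw [h4.fderiv]
  simp only [TubeData.F, neg_apply, smul_apply, smul_eq_mul]
  field_simp

theorem F_smooth (T : TubeData) : ContDiff ℝ ∞ T.F := by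
  have : T.F = fun w => 1 / (T.κ - 2 * T.Φ w) := rfl
  rw [this]
  exact contDiff_const.div (contDiff_const.sub (contDiff_const.mul T.hΦ))
    (fun w => (T.κ_pos w).ne')

theorem F_pos (T : TubeData) (w : ℂ) : 0 < T.F w := one_div_pos.2 (T.κ_pos w)

end Pool.Agent.Helper79.NC.Flat
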