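import Pool.Agent.Helper79.NC.Flat3

/-!
# Module M4: the flat part of the tube
-/

set_option maxSynthPendingDepth 3
set_option maxHeartbeats 4000000

namespace Pool.Agent.Helper79.NC.Flat

open scoped Topology ContDiff
open Set Filter

theorem eventually_const {f : ℝ → ℝ} {t : ℝ} (h : ∀ᶠ s in 𝓝 t, HasDerivAt f 0 s) :
    ∀ᶠ s in 𝓝 t, f s = f t := by
  obtain ⟨r, hr, hb⟩ := Metric.eventually_nhds_iff_ball.1 h
  filter_upwards [Metric.ball_mem_nhds t hr] with s hs
  refine Metric.isOpen_ball.is_const_of_deriv_eq_zero (convex_ball t r).isPreconnected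
    (fun y hy => (hb y hy).differentiableAt.differentiableWithinAt)
    (fun y hy => (hb y hy).deriv) hs (Metric.mem_ball_self hr)

/-- second order condition at a minimum -/
theorem second_nonneg {f f' : ℝ → ℝ} {f'' : ℝ} (hf : ∀ s, HasDerivAt f (f' s) s)
    (hf' : HasDerivAt f' f'' 0) (h0 : ∀ s, 0 ≤ f s) (hz : f 0 = 0) : 0 ≤ f'' := by
  by_contra hneg
  push Not at hneg
  have hmin : IsLocalMin f 0 := by
    filter_upwards with s
    rw [hz]; exact h0 s
  have hf0 : f' 0 = 0 := hmin.hasDerivAt_eq_zero (hf 0)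
  have h1 := hf'.tendsto_slope
  have h2 : ∀ᶠ s in 𝓝[≠] (0:ℝ), slope f' 0 s < 0 := h1.eventually (Iio_mem_nhds hneg)
  rw [eventually_nhdsWithin_iff, Metric.eventually_nhds_iff_ball] at h2
  obtain ⟨r, hr, hb⟩ := h2
  have hlt : ∀ s ∈ Ioo 0 (r/2), f' s < 0 := by
    intro s hs
    have hs1 : s ∈ Metric.ball (0:ℝ) r := by
      rw [Metric.mem_ball, dist_zero_right, Real.norm_eq_abs, abs_of_pos hs.1]
      linarith [hs.2]
    have := hb s hs1 hs.1.ne'
    rw [slope_def_field, hf0, sub_zero, sub_zero] at this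
    by_contra h3
    push Not at h3
    have : 0 ≤ f' s / s := div_nonneg h3 hs.1.le
    linarith
  have hanti : StrictAntiOn f (Icc 0 (r/2)) := by
    apply strictAntiOn_of_deriv_neg (convex_Icc _ _)
      (fun s _ => (hf s).continuousAt.continuousWithinAt)
    intro s hs
    rw [interior_Icc] at hs
    rw [(hf s).deriv]
    exact hlt s hs
  have := hanti ⟨le_rfl, by positivity⟩ ⟨by positivity, le_rfl⟩ (by positivity : (0:ℝ) < r/2)
  have h4 := h0 (r/2)
  rw [hz] at this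
  linarith

/-- The Hessian of `Φ` at a zero is nonnegative. -/
theorem hess_zero_nonneg (T : TubeData) {w : ℂ} (hw : T.Φ w = 0) (X : ℂ) :
    0 ≤ fderiv ℝ (fderiv ℝ T.Φ) w X X := by
  have hd : Differentiable ℝ T.Φ := T.hΦ.differentiable (by simp)
  have hd2 : Differentiable ℝ (fderiv ℝ T.Φ) :=
    (T.hΦ.fderiv_right (m := ∞) (by simp)).differentiable (by simp)
  have hl : ∀ s : ℝ, HasDerivAt (fun s : ℝ => w + s • X) X s := by
    intro s
    simpa using ((hasDerivAt_id s).smul_const X).const_add w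
  refine second_nonneg (f := fun s : ℝ => T.Φ (w + s • X))
    (f' := fun s : ℝ => fderiv ℝ T.Φ (w + s • X) X) (fun s => ?_) ?_
    (fun s => T.Φ_nonneg _) (by simpa using hw)
  · exact (hd _).hasFDerivAt.comp_hasDerivAt s (hl s)
  · have h1 := ((hd2 (w + (0:ℝ) • X)).hasFDerivAt.comp_hasDerivAt (0:ℝ) (hl 0)).clm_apply
      (hasDerivAt_const (0:ℝ) X)
    refine h1.congr_deriv ?_
    simp

theorem grad_zero (T : TubeData) {w : ℂ} (hw : T.Φ w = 0) : fderiv ℝ T.Φ w = 0 := by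
  have hmin : IsLocalMin T.Φ w := by
    filter_upwards with s
    rw [hw]; exact T.Φ_nonneg s
  exact hmin.fderiv_eq_zero

section

variable (T : TubeData) {c J : ℝ → E3} {C δC t₀ : ℝ}

theorem metric_deriv (hc : ContDiff ℝ ∞ c) (hJ : ContDiff ℝ ∞ J) {t : ℝ}
    (hn : ∀ᶠ s in 𝓝 t, Complex.normSq (c s).1 < T.u2') :
    deriv (fun τ => tubeMetric T.F T.σ (c τ) (J τ) (J τ)) t
      = fderiv ℝ T.F (c t).1 (deriv c t).1 * (J t).2 ^ 2
        + 2 * T.F (c t).1 * (J t).2 * (deriv J t).2 + 2 * dot (J t).1 (deriv J t).1 := by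
  have h1 : (fun τ => tubeMetric T.F T.σ (c τ) (J τ) (J τ)) =ᶠ[𝓝 t]
      fun τ => T.F (c τ).1 * (J τ).2 ^ 2 + ((J τ).1.re ^ 2 + (J τ).1.im ^ 2) := by
    filter_upwards [hn] with s hs
    rw [tubeMetric_apply, T.σ_zero _ hs]
    unfold dot
    ring
  rw [h1.deriv_eq]
  have hF : HasFDerivAt T.F (fderiv ℝ T.F (c t).1) (c t).1 :=
    ((F_smooth T).differentiable (by simp) _).hasFDerivAt
  have h2 := hF.comp_hasDerivAt t (hasDerivAt_fst (hasDerivAt_of_smooth hc t))
  have h3 := hasDerivAt_snd (hasDerivAt_of_smooth hJ t)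
  have h4 := hasDerivAt_re (hasDerivAt_fst (hasDerivAt_of_smooth hJ t))
  have h5 := hasDerivAt_im (hasDerivAt_fst (hasDerivAt_of_smooth hJ t))
  have h6 := (h2.mul (h3.pow 2)).add ((h4.pow 2).add (h5.pow 2))
  refine (h6.congr_deriv ?_).deriv
  simp only [Function.comp, Pi.pow_apply, dot]
  push_cast
  ring

/-- The quantity `½ (g(J,J))' - 𝒲` in the flat part. -/
theorem D_eq (hc : ContDiff ℝ ∞ c) (hJ : ContDiff ℝ ∞ J) {t : ℝ}
    (hn : ∀ᶠ s in 𝓝 t, Complex.normSq (c s).1 < T.u2')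
    (h1 : T.F (c t).1 * (deriv c t).2 = C)
    (h2 : T.F (c t).1 * (deriv J t).2 + fderiv ℝ T.F (c t).1 (J t).1 * (deriv c t).2 = δC) :
    1 / 2 * deriv (fun τ => tubeMetric T.F T.σ (c τ) (J τ) (J τ)) t
        - corr T (c t) (deriv c t) (J t)
      = dot (J t).1 (deriv J t).1 + (J t).2 * δC
        - ss ((Complex.normSq (c t).1 - T.u1) / (T.u2 - T.u1))
          * cert T.Φ C (c t).1 (deriv c t).1 (J t).1 := by
  have hlt : Complex.normSq (c t).1 < T.u2' := hn.self_of_nhds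
  have hg : gauge (Complex.normSq (c t).1) = 1 := by
    apply gauge_of_le
    have := T.u23
    have := T.u3_lt
    linarith
  rw [metric_deriv T hc hJ hn]
  unfold corr
  rw [hg, h1, ← h2]
  ring

theorem D0_deriv (hJ : ContDiff ℝ ∞ J)
    (h1 : T.F (c t₀).1 * (deriv c t₀).2 = C)
    (h2 : T.F (c t₀).1 * (deriv J t₀).2 + fderiv ℝ T.F (c t₀).1 (J t₀).1 * (deriv c t₀).2 = δC)
    (h4 : ∀ e : ℂ, dot (deriv (deriv J) t₀).1 e =
      C ^ 2 * fderiv ℝ (fderiv ℝ T.Φ) (c t₀).1 (J t₀).1 e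
        + 2 * C * δC * fderiv ℝ T.Φ (c t₀).1 e) :
    HasDerivAt (fun t => dot (J t).1 (deriv J t).1 + (J t).2 * δC)
      (Complex.normSq (deriv J t₀).1
        + C ^ 2 * fderiv ℝ (fderiv ℝ T.Φ) (c t₀).1 (J t₀).1 (J t₀).1
        + δC ^ 2 / T.F (c t₀).1) t₀ := by
  have hJ' := hasDerivAt_of_smooth hJ t₀
  have hJ'' := hasDerivAt_of_smooth (smooth_deriv hJ) t₀
  have d1 := hasDerivAt_re (hasDerivAt_fst hJ')
  have d2 := hasDerivAt_im (hasDerivAt_fst hJ')
  have d3 := hasDerivAt_re (hasDerivAt_fst hJ'')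
  have d4 := hasDerivAt_im (hasDerivAt_fst hJ'')
  have d5 := hasDerivAt_snd hJ'
  have h := ((d1.mul d3).add (d2.mul d4)).add (d5.mul_const δC)
  refine h.congr_deriv ?_
  have e1 := h4 (J t₀).1
  have hF := F_pos T (c t₀).1
  have hv : (deriv J t₀).2 = δC / T.F (c t₀).1
      - 2 * C * fderiv ℝ T.Φ (c t₀).1 (J t₀).1 := by
    rw [fderiv_F] at h2
    rw [eq_sub_iff_add_eq, eq_div_iff hF.ne', ← h2, ← h1]
    ring
  rw [hv]
  simp only [dot] at e1
  rw [Complex.normSq_apply]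
  have e2 : (deriv (deriv J) t₀).1.re * (J t₀).1.re + (deriv (deriv J) t₀).1.im * (J t₀).1.im
    = C ^ 2 * fderiv ℝ (fderiv ℝ T.Φ) (c t₀).1 (J t₀).1 (J t₀).1
        + 2 * C * δC * fderiv ℝ T.Φ (c t₀).1 (J t₀).1 := e1
  have : δC ^ 2 / T.F (c t₀).1 = (δC / T.F (c t₀).1) * δC := by ring
  rw [this]
  linear_combination e2

/-- Cut-off data. -/
theorem cutoff_data (hc : ContDiff ℝ ∞ c) (hJ : ContDiff ℝ ∞ J)
    (h3 : ∀ e : ℂ, dot (deriv (deriv c) t₀).1 e = C ^ 2 * fderiv ℝ T.Φ (c t₀).1 e)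
    (hu : Complex.normSq (c t₀).1 ≤ T.u2) (hC : C ≠ 0) :
    ∃ ε η : ℝ, 0 ≤ ε ∧ 0 ≤ η ∧
      ε ≤ 0.01 * ss ((Complex.normSq (c t₀).1 - T.u1) / (T.u2 - T.u1)) + η / 2 ∧
      HasDerivAt (fun s => ss ((Complex.normSq (c s).1 - T.u1) / (T.u2 - T.u1)))
        (-ε * ((mkLF T c J C t₀ hc hJ h3).p t₀ / (mkLF T c J C t₀ hc hJ h3).q t₀)) t₀ ∧
      ∀ a b : ℝ, η * (mkLF T c J C t₀ hc hJ h3).n * (a ^ 2 + b ^ 2) ≤
        (1 - ss ((Complex.normSq (c t₀).1 - T.u1) / (T.u2 - T.u1)))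
          * ((mkLF T c J C t₀ hc hJ h3).q t₀ * (mkLF T c J C t₀ hc hJ h3).H a b) := by
  have h12 : 0 < T.u2 - T.u1 := by linarith [T.u12]
  have hcont : ContinuousAt (fun s => Complex.normSq (c s).1) t₀ :=
    (Complex.continuous_normSq.comp (continuous_fst.comp hc.continuous)).continuousAt
  rcases lt_or_ge (Complex.normSq (c t₀).1) T.u1 with hlt | hge
  · refine ⟨0, 0, le_rfl, le_rfl, ?_, ?_, ?_⟩
    · have := ss_nonneg ((Complex.normSq (c t₀).1 - T.u1) / (T.u2 - T.u1))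
      positivity
    · rw [neg_zero, zero_mul]
      refine (hasDerivAt_const t₀ (1:ℝ)).congr_of_eventuallyEq ?_
      filter_upwards [hcont.eventually (Iio_mem_nhds hlt)] with s hs
      apply ss_of_le
      apply div_nonpos_of_nonpos_of_nonneg _ h12.le
      have : Complex.normSq (c s).1 < T.u1 := hs
      linarith
    · intro a b
      rw [ss_of_le (div_nonpos_of_nonpos_of_nonneg (by linarith) h12.le)]
      simp
  · set u := Complex.normSq (c t₀).1 with hudef
    set x := (u - T.u1) / (T.u2 - T.u1) with hx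
    have hx0 : 0 ≤ x := div_nonneg (by linarith) h12.le
    have hx1 : x ≤ 1 := by rw [hx, div_le_one h12]; linarith
    have hu0 : 0 < u := by linarith [T.u0_pos, T.u01]
    have hP : 0 < T.P u := T.P_pos u hge
    have hP1 : 0 < deriv T.P u := T.P1_pos u ⟨hge, hu⟩
    have hP2 : 0 ≤ deriv (deriv T.P) u := T.P2_nonneg u ⟨hge, hu⟩
    have hcut := T.cutoff u ⟨hge, hu⟩
    -- expansions of Φ near
    have hev : ∀ᶠ z in 𝓝 (c t₀).1, T.Φ z = T.P (Complex.normSq z) := by
      have : ∀ᶠ z in 𝓝 (c t₀).1, T.u0 < Complex.normSq z :=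
        Complex.continuous_normSq.continuousAt.eventually (Ioi_mem_nhds (by linarith [T.u01]))
      filter_upwards [this] with z hz using T.Φ_eq z hz
    have hev0 : ∀ᶠ z in 𝓝 (c t₀).1, T.u0 < Complex.normSq z :=
        Complex.continuous_normSq.continuousAt.eventually (Ioi_mem_nhds (by linarith [T.u01]))
    have hPd : ∀ y, T.u0 < y → HasDerivAt T.P (deriv T.P y) y := by
      intro y hy
      exact ((T.hP.contDiffAt (Ioi_mem_nhds hy)).differentiableAt (by simp)).hasDerivAt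
    have hPd2 : ∀ y, T.u0 < y → HasDerivAt (deriv T.P) (deriv (deriv T.P) y) y := by
      intro y hy
      have h1 : ContDiffOn ℝ ∞ (deriv T.P) (Ioi T.u0) :=
        ((contDiffOn_infty_iff_deriv_of_isOpen isOpen_Ioi).1 T.hP).2
      exact ((h1.contDiffAt (Ioi_mem_nhds hy)).differentiableAt (by simp)).hasDerivAt
    have hnsq : ∀ z : ℂ, HasFDerivAt (fun z : ℂ => Complex.normSq z)
        ((2 * z.re) • Complex.reCLM + (2 * z.im) • Complex.imCLM : ℂ →L[ℝ] ℝ) z := by
      intro z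
      have e : (fun z : ℂ => Complex.normSq z) = fun z : ℂ => z.re ^ 2 + z.im ^ 2 := by
        funext z; rw [Complex.normSq_apply]; ring
      rw [e]
      have a1 := (Complex.reCLM.hasFDerivAt (x := z)).pow 2
      have a2 := (Complex.imCLM.hasFDerivAt (x := z)).pow 2
      refine (a1.add a2).congr_fderiv ?_
      ext v
      simp
    have hΦ1 : ∀ z, T.u0 < Complex.normSq z → fderiv ℝ T.Φ z =
        deriv T.P (Complex.normSq z) •
          ((2 * z.re) • Complex.reCLM + (2 * z.im) • Complex.imCLM : ℂ →L[ℝ] ℝ) := by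
      intro z hz
      have e : T.Φ =ᶠ[𝓝 z] fun z => T.P (Complex.normSq z) := by
        have : ∀ᶠ y in 𝓝 z, T.u0 < Complex.normSq y :=
          Complex.continuous_normSq.continuousAt.eventually (Ioi_mem_nhds hz)
        filter_upwards [this] with y hy using T.Φ_eq y hy
      rw [e.fderiv_eq]
      exact ((hPd _ hz).comp_hasFDerivAt z (hnsq z)).fderiv
    have hΦ2 : ∀ a b : ℝ, fderiv ℝ (fderiv ℝ T.Φ) (c t₀).1 ⟨a, b⟩ ⟨a, b⟩
        = 2 * deriv T.P u * (a ^ 2 + b ^ 2)
          + 4 * deriv (deriv T.P) u * ((c t₀).1.re * a + (c t₀).1.im * b) ^ 2 := by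
      intro a b
      have e : (fderiv ℝ T.Φ) =ᶠ[𝓝 (c t₀).1] fun z => deriv T.P (Complex.normSq z) •
          ((2 * z.re) • Complex.reCLM + (2 * z.im) • Complex.imCLM : ℂ →L[ℝ] ℝ) := by
        filter_upwards [hev0] with z hz using hΦ1 z hz
      rw [e.fderiv_eq]
      have hz : T.u0 < Complex.normSq (c t₀).1 := by linarith [T.u01]
      have b1 := (hPd2 _ hz).comp_hasFDerivAt (c t₀).1 (hnsq (c t₀).1)
      have b2 : HasFDerivAt (fun z : ℂ => ((2 * z.re) • Complex.reCLM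
          + (2 * z.im) • Complex.imCLM : ℂ →L[ℝ] ℝ))
          (((2:ℝ) • Complex.reCLM).smulRight Complex.reCLM
            + ((2:ℝ) • Complex.imCLM).smulRight Complex.imCLM) (c t₀).1 := by
        have c1 : HasFDerivAt (fun z : ℂ => 2 * z.re) ((2:ℝ) • Complex.reCLM) (c t₀).1 :=
          (Complex.reCLM.hasFDerivAt (x := (c t₀).1)).const_mul 2
        have c2 : HasFDerivAt (fun z : ℂ => 2 * z.im) ((2:ℝ) • Complex.imCLM) (c t₀).1 :=
          (Complex.imCLM.hasFDerivAt (x := (c t₀).1)).const_mul 2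
        exact (c1.smul_const Complex.reCLM).add (c2.smul_const Complex.imCLM)
      have b3 := b1.smul b2
      have b4 := b3.fderiv
      have b5 : fderiv ℝ (fun z : ℂ => deriv T.P (Complex.normSq z) •
          ((2 * z.re) • Complex.reCLM + (2 * z.im) • Complex.imCLM : ℂ →L[ℝ] ℝ)) (c t₀).1 = _ :=
        b4
      rw [b5]
      simp [← hudef]
      ring
    -- the quantities
    set L := mkLF T c J C t₀ hc hJ h3 with hL
    have hq : L.q t₀ = C ^ 2 * T.P u := by
      have : L.q t₀ = C ^ 2 * T.Φ (c t₀).1 := rfl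
      rw [this, T.Φ_eq _ (by linarith [T.u01])]
    have hz : T.u0 < Complex.normSq (c t₀).1 := by linarith [T.u01]
    have hg1 : L.g1 t₀ = C ^ 2 * (2 * deriv T.P u * (c t₀).1.re) := by
      have : L.g1 t₀ = C ^ 2 * fderiv ℝ T.Φ (c t₀).1 1 := rfl
      rw [this, hΦ1 _ hz]
      simp [← hudef]; left; ring
    have hg2 : L.g2 t₀ = C ^ 2 * (2 * deriv T.P u * (c t₀).1.im) := by
      have : L.g2 t₀ = C ^ 2 * fderiv ℝ T.Φ (c t₀).1 Complex.I := rfl
      rw [this, hΦ1 _ hz]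
      simp [← hudef]; left; ring
    have hp : L.p t₀ = C ^ 2 * (2 * deriv T.P u * dot (c t₀).1 (deriv c t₀).1) := by
      have : L.p t₀ = L.g1 t₀ * (deriv c t₀).1.re + L.g2 t₀ * (deriv c t₀).1.im := rfl
      rw [this, hg1, hg2]; unfold dot; ring
    have huu : u = (c t₀).1.re ^ 2 + (c t₀).1.im ^ 2 := by
      rw [hudef, Complex.normSq_apply]; ring
    have hn : L.n = C ^ 4 * (4 * u * (deriv T.P u) ^ 2) := by
      have : L.n = L.g1 t₀ ^ 2 + L.g2 t₀ ^ 2 := rfl
      rw [this, hg1, hg2, huu]; ring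
    have hH : ∀ a b : ℝ, L.H a b = C ^ 2 * (2 * deriv T.P u * (a ^ 2 + b ^ 2)
          + 4 * deriv (deriv T.P) u * ((c t₀).1.re * a + (c t₀).1.im * b) ^ 2) := by
      intro a b
      have := mkLF_H T c J C t₀ hc hJ h3 ⟨a, b⟩
      rw [hΦ2] at this
      exact this
    have hss1 := ss_le_one x
    have hss0 := ss_nonneg x
    refine ⟨-(ss' x / (T.u2 - T.u1)) * (T.P u / deriv T.P u),
      (1 - ss x) * T.P u / (2 * u * deriv T.P u), ?_, ?_, ?_, ?_, ?_⟩
    · have := ss'_nonpos x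
      have h5 : 0 ≤ -(ss' x / (T.u2 - T.u1)) := by
        rw [neg_nonneg]; exact div_nonpos_of_nonpos_of_nonneg this h12.le
      positivity
    · have : 0 ≤ 1 - ss x := by linarith
      positivity
    · rw [ss'_mid hx0 hx1, ss_mid hx0 hx1]
      set R := T.P u / deriv T.P u with hR
      have hR0 : 0 < R := by positivity
      have hcut' : 3600 * u * R ≤ (T.u2 - T.u1) ^ 2 := by
        rw [hR, mul_div_assoc', div_le_iff₀ hP1]; linarith
      set d := T.u2 - T.u1 with hd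
      have e1 : (1 - (1 - x) ^ 2 * (1 + 2 * x)) * T.P u / (2 * u * deriv T.P u)
          = x ^ 2 * (3 - 2 * x) * (R / (2 * u)) := by
        rw [hR]; field_simp; ring
      rw [e1]
      -- a = R/d, b = R/(4u): 36 a^2 ≤ 0.04 b
      set a := R / d with ha
      set b := R / (4 * u) with hb
      have ha0 : 0 < a := by positivity
      have hb0 : 0 < b := by positivity
      have hab : 900 * a ^ 2 ≤ b := by
        rw [ha, hb, div_pow, mul_div_assoc', div_le_div_iff₀ (by positivity) (by positivity)]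
        nlinarith [mul_le_mul_of_nonneg_left hcut' hR0.le]
      have e2 : -(-(6 * x * (1 - x)) / d) * R = 6 * x * (1 - x) * a := by
        rw [ha]; ring
      have e3 : x ^ 2 * (3 - 2 * x) * (R / (2 * u)) / 2 = x ^ 2 * (3 - 2 * x) * b := by
        rw [hb]; field_simp; ring
      rw [e2, e3]
      have f1 : (0:ℝ) ≤ (1 - x) ^ 2 * (2 * x) := by positivity
      have f2 : 0 ≤ x ^ 2 * (2 - 2 * x) * b := by
        have : 0 ≤ 2 - 2 * x := by linarith
        positivity
      have f3 : 0 ≤ (0.1 * (1 - x) - 30 * x * a) ^ 2 := sq_nonneg _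
      have f4 : x ^ 2 * (900 * a ^ 2) ≤ x ^ 2 * b := by gcongr
      nlinarith
    · have d1 := hasDerivAt_fst (hasDerivAt_of_smooth hc t₀)
      have d2 := (hnsq (c t₀).1).comp_hasDerivAt t₀ d1
      have d3 : HasDerivAt (fun s => (Complex.normSq (c s).1 - T.u1) / (T.u2 - T.u1))
          ((2 * dot (c t₀).1 (deriv c t₀).1) / (T.u2 - T.u1)) t₀ := by
        refine ((d2.sub_const T.u1).div_const (T.u2 - T.u1)).congr_deriv ?_
        simp [dot]; ring
      have d4 := (hasDerivAt_ss x).comp t₀ d3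
      refine d4.congr_deriv ?_
      rw [hp, hq]
      field_simp
    · intro a b
      rw [hn, hq, hH]
      have h5 : 0 ≤ 1 - ss x := by linarith
      have h6 : (1 - ss x) * T.P u / (2 * u * deriv T.P u) * (C ^ 4 * (4 * u * deriv T.P u ^ 2))
          * (a ^ 2 + b ^ 2)
          = (1 - ss x) * (C ^ 2 * T.P u * (C ^ 2 * (2 * deriv T.P u * (a ^ 2 + b ^ 2)))) := by
        field_simp; ring
      rw [h6]
      have h7 : C ^ 2 * (2 * deriv T.P u * (a ^ 2 + b ^ 2))
        ≤ C ^ 2 * (2 * deriv T.P u * (a ^ 2 + b ^ 2)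
          + 4 * deriv (deriv T.P) u * ((c t₀).1.re * a + (c t₀).1.im * b) ^ 2) := by
        have : 0 ≤ 4 * deriv (deriv T.P) u * ((c t₀).1.re * a + (c t₀).1.im * b) ^ 2 := by
          positivity
        gcongr
        linarith
      gcongr

end

end Pool.Agent.Helper79.NC.Flat
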