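import Pool.Agent.Helper79.NC.Flat4

/-!
# Module M4: the flat part of the tube, conclusion
-/

set_option maxSynthPendingDepth 3
set_option maxHeartbeats 4000000

namespace Pool.Agent.Helper79.NC.Flat

open scoped Topology ContDiff
open Set Filter

/-- The gradient as a vector. -/
theorem eq_gradC {a : ℂ} {k : ℝ} {φ : ℂ → ℝ} {w : ℂ} (h : ∀ e : ℂ, dot a e = k * fderiv ℝ φ w e) :
    a = k • gradC φ w := by
  apply Complex.ext
  · have := h 1
    simpa [dot, gradC] using this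
  · have := h Complex.I
    simpa [dot, gradC] using this

section

variable (T : TubeData) {c J : ℝ → E3} {C t₀ : ℝ}

/-- If the velocity vanishes at a critical point of the potential, then it vanishes nearby. -/
theorem rest (hc : ContDiff ℝ ∞ c)
    (h3 : ∀ᶠ t in 𝓝 t₀, ∀ e : ℂ,
      dot (deriv (deriv c) t).1 e = C ^ 2 * fderiv ℝ T.Φ (c t).1 e)
    (hv : (deriv c t₀).1 = 0) (hg : fderiv ℝ T.Φ (c t₀).1 = 0) :
    ∀ᶠ t in 𝓝 t₀, (deriv c t).1 = 0 ∧ (c t).1 = (c t₀).1 := by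
  have hgs : ContDiff ℝ ∞ (fun w : ℂ => gradC T.Φ w) := by
    have h1 : ContDiff ℝ ∞ (fderiv ℝ T.Φ) := T.hΦ.fderiv_right (m := ∞) (by simp)
    have e : (fun w : ℂ => gradC T.Φ w) = fun w =>
        (fderiv ℝ T.Φ w 1) • (1 : ℂ) + (fderiv ℝ T.Φ w Complex.I) • Complex.I := by
      funext w
      apply Complex.ext <;> simp [gradC]
    rw [e]
    exact ((h1.clm_apply contDiff_const).smul contDiff_const).add
      ((h1.clm_apply contDiff_const).smul contDiff_const)
  set X : ℂ × ℂ → ℂ × ℂ := fun p => (p.2, (C ^ 2) • gradC T.Φ p.1) with hX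
  have hXs : ContDiff ℝ ∞ X :=
    contDiff_snd.prodMk ((hgs.comp contDiff_fst).const_smul (C ^ 2))
  obtain ⟨K, s, hs, hLip⟩ := ((hXs.of_le (by simp : (1 : WithTop ℕ∞) ≤ ∞)).contDiffAt
    (x := ((c t₀).1, (0:ℂ)))).exists_lipschitzOnWith
  set f : ℝ → ℂ × ℂ := fun t => ((c t).1, (deriv c t).1) with hf
  have hfc : ContinuousAt f t₀ :=
    ((continuous_fst.comp hc.continuous).prodMk
      (continuous_fst.comp (smooth_deriv hc).continuous)).continuousAt
  have hf0 : f t₀ = ((c t₀).1, (0:ℂ)) := by rw [hf]; simp [hv]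
  have h1 : ∀ᶠ t in 𝓝 t₀, HasDerivAt f (X (f t)) t ∧ f t ∈ s := by
    have hs' : ∀ᶠ t in 𝓝 t₀, f t ∈ s := hfc.eventually (by rw [hf0]; exact hs)
    filter_upwards [h3, hs'] with t ht hts
    refine ⟨?_, hts⟩
    have d1 := hasDerivAt_fst (hasDerivAt_of_smooth hc t)
    have d2 := hasDerivAt_fst (hasDerivAt_of_smooth (smooth_deriv hc) t)
    rw [eq_gradC ht] at d2
    exact d1.prodMk d2
  have h2 : ∀ᶠ t in 𝓝 t₀, HasDerivAt (fun _ : ℝ => ((c t₀).1, (0:ℂ))) (X ((c t₀).1, (0:ℂ))) t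
      ∧ ((c t₀).1, (0:ℂ)) ∈ s := by
    have e : X ((c t₀).1, (0:ℂ)) = 0 := by
      simp only [hX]
      have : gradC T.Φ (c t₀).1 = 0 := by
        apply Complex.ext <;> simp [gradC, hg]
      rw [this]
      simp
    filter_upwards with t
    rw [e]
    exact ⟨hasDerivAt_const _ _, mem_of_mem_nhds hs⟩
  have := ODE_solution_unique_of_eventually (v := fun _ => X) (s := fun _ => s) (K := K)
    (f := f) (g := fun _ => ((c t₀).1, (0:ℂ))) (t₀ := t₀)
    (Eventually.of_forall fun _ => hLip) h1 h2 hf0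
  filter_upwards [this] with t ht
  rw [hf] at ht
  simp only [Prod.mk.injEq] at ht
  exact ⟨ht.2, ht.1⟩

theorem J_re_le (j : E3) : |j.1.re| ≤ ‖j‖ :=
  (Complex.abs_re_le_norm _).trans (norm_fst_le j)

theorem J_im_le (j : E3) : |j.1.im| ≤ ‖j‖ :=
  (Complex.abs_im_le_norm _).trans (norm_fst_le j)

/-- local boundedness from a continuous coefficient -/
theorem bound_of_cont {f n k : ℝ → ℝ} {t : ℝ} (hn : ∀ s, 0 ≤ n s) (hk : ContinuousAt k t)
    (h : ∀ᶠ s in 𝓝 t, |f s| ≤ k s * n s) : ∃ K : ℝ, ∀ᶠ s in 𝓝 t, |f s| ≤ K * n s := by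
  refine ⟨k t + 1, ?_⟩
  have : ∀ᶠ s in 𝓝 t, k s < k t + 1 := hk.eventually (Iio_mem_nhds (by linarith))
  filter_upwards [h, this] with s h1 h2
  refine h1.trans ?_
  have := hn s
  gcongr

/-- The certificate: derivative and bound. -/
theorem cert_main (hc : ContDiff ℝ ∞ c) (hJ : ContDiff ℝ ∞ J)
    (hu : Complex.normSq (c t₀).1 ≤ T.u2)
    (h3 : ∀ᶠ t in 𝓝 t₀, ∀ e : ℂ,
      dot (deriv (deriv c) t).1 e = C ^ 2 * fderiv ℝ T.Φ (c t).1 e) :
    (∃ d : ℝ, HasDerivAt (fun s => ss ((Complex.normSq (c s).1 - T.u1) / (T.u2 - T.u1))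
        * cert T.Φ C (c s).1 (deriv c s).1 (J s).1) d t₀ ∧
      d ≤ Complex.normSq (deriv J t₀).1
        + C ^ 2 * fderiv ℝ (fderiv ℝ T.Φ) (c t₀).1 (J t₀).1 (J t₀).1) ∧
    ∃ K : ℝ, ∀ᶠ s in 𝓝 t₀, |cert T.Φ C (c s).1 (deriv c s).1 (J s).1| ≤ K * ‖J s‖ ^ 2 := by
  by_cases hC : C = 0
  · -- no angular momentum
    subst hC
    have hz : ∀ s, cert T.Φ 0 (c s).1 (deriv c s).1 (J s).1 = 0 := by
      intro s; unfold cert; simp
    refine ⟨⟨0, ?_, ?_⟩, ⟨0, ?_⟩⟩
    · simp only [hz, mul_zero]; exact hasDerivAt_const _ _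
    · have := Complex.normSq_nonneg (deriv J t₀).1
      simpa using this
    · filter_upwards with s
      rw [hz]; simp
  have h30 := h3.self_of_nhds
  have hC2 : 0 < C ^ 2 := by positivity
  set L := mkLF T c J C t₀ hc hJ h30 with hL
  have hLt : L.t = t₀ := rfl
  have hcert : ∀ s, cert T.Φ C (c s).1 (deriv c s).1 (J s).1 =
      if L.W s ≤ 2 * L.q s then L.Ui s else
        L.l s ^ 2 * L.Ui s + (1 - L.l s ^ 2) * L.Ue s :=
    fun s => cert_eq T c J C t₀ hc hJ h30 s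
  have hLq : ∀ s, L.q s = C ^ 2 * T.Φ (c s).1 := fun s => rfl
  have hq0 : ∀ s, 0 ≤ L.q s := fun s => mul_nonneg hC2.le (T.Φ_nonneg _)
  have hW0 : ∀ s, 0 ≤ L.W s := fun s => by unfold LF.W; positivity
  have hYYb : ∀ s, L.YY s ≤ 2 * ‖J s‖ ^ 2 := by
    intro s
    have e : L.YY s = |(J s).1.re| ^ 2 + |(J s).1.im| ^ 2 := by
      rw [sq_abs, sq_abs]; rfl
    rw [e]
    have h1 := J_re_le (J s)
    have h2 := J_im_le (J s)
    have h3 : |(J s).1.re| ^ 2 ≤ ‖J s‖ ^ 2 := by gcongr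
    have h4 : |(J s).1.im| ^ 2 ≤ ‖J s‖ ^ 2 := by gcongr
    linarith
  have hYY0 : ∀ s, 0 ≤ L.YY s := fun s => by unfold LF.YY; positivity
  -- target value
  have htar : Complex.normSq (deriv J t₀).1
        + C ^ 2 * fderiv ℝ (fderiv ℝ T.Φ) (c t₀).1 (J t₀).1 (J t₀).1
      = L.Z1 ^ 2 + L.Z2 ^ 2 + L.HYY := by
    have e1 : L.HYY = C ^ 2 * fderiv ℝ (fderiv ℝ T.Φ) (c t₀).1 (J t₀).1 (J t₀).1 :=
      mkLF_H T c J C t₀ hc hJ h30 (J t₀).1
    have e2 : Complex.normSq (deriv J t₀).1 = L.Z1 ^ 2 + L.Z2 ^ 2 := by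
      rw [Complex.normSq_apply]
      change _ = (deriv J t₀).1.re ^ 2 + (deriv J t₀).1.im ^ 2
      ring
    rw [e1, e2]
  rw [htar]
  -- energy
  have hE : ∀ᶠ s in 𝓝 t₀, L.W s - 2 * L.q s = L.W t₀ - 2 * L.q t₀ := by
    refine eventually_const (f := fun s => L.W s - 2 * L.q s) ?_
    filter_upwards [h3] with s hs
    have a1 := (mkLF T c J C s hc hJ hs).hW
    have a2 := (mkLF T c J C s hc hJ hs).hq
    have a3 := a1.sub (a2.const_mul 2)
    refine a3.congr_deriv ?_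
    unfold LF.p
    ring
  have hWc := L.hW.continuousAt
  have hqc := L.hq.continuousAt
  -- criterion
  have hlt2 : Complex.normSq (c t₀).1 < T.u2' := lt_of_le_of_lt hu T.u22
  have hcrit : ∀ a b : ℝ, (L.g1 L.t * a + L.g2 L.t * b) ^ 2
      - (1 / 1000) * L.n * (a ^ 2 + b ^ 2) ≤ L.q L.t * L.H a b := by
    intro a b
    have h := T.crit _ hlt2 ⟨a, b⟩
    have e1 : L.H a b = C ^ 2 * fderiv ℝ (fderiv ℝ T.Φ) (c t₀).1 ⟨a, b⟩ ⟨a, b⟩ :=
      mkLF_H T c J C t₀ hc hJ h30 ⟨a, b⟩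
    have e2 : L.g1 L.t * a + L.g2 L.t * b = C ^ 2 * fderiv ℝ T.Φ (c t₀).1 ⟨a, b⟩ := by
      rw [clm_expand _ (⟨a, b⟩ : ℂ)]
      have g1 : L.g1 L.t = C ^ 2 * fderiv ℝ T.Φ (c t₀).1 1 := rfl
      have g2 : L.g2 L.t = C ^ 2 * fderiv ℝ T.Φ (c t₀).1 Complex.I := rfl
      rw [g1, g2]; ring
    have e3 : L.n = C ^ 4 * gradSq T.Φ (c t₀).1 := by
      have g1 : L.g1 L.t = C ^ 2 * fderiv ℝ T.Φ (c t₀).1 1 := rfl
      have g2 : L.g2 L.t = C ^ 2 * fderiv ℝ T.Φ (c t₀).1 Complex.I := rfl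
      unfold LF.n gradSq
      rw [g1, g2]; ring
    have e4 : Complex.normSq (⟨a, b⟩ : ℂ) = a ^ 2 + b ^ 2 := by
      rw [Complex.normSq_apply]; ring
    rw [e4] at h
    rw [e2, e3, hLt, hLq, e1]
    have h5 := mul_le_mul_of_nonneg_left h (by positivity : 0 ≤ C ^ 4)
    calc (C ^ 2 * fderiv ℝ T.Φ (c t₀).1 ⟨a, b⟩) ^ 2
          - 1 / 1000 * (C ^ 4 * gradSq T.Φ (c t₀).1) * (a ^ 2 + b ^ 2)
        = C ^ 4 * ((fderiv ℝ T.Φ (c t₀).1 ⟨a, b⟩) ^ 2
          - 1 / 1000 * gradSq T.Φ (c t₀).1 * (a ^ 2 + b ^ 2)) := by ring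
      _ ≤ _ := h5
      _ = _ := by ring
  -- bound for Ui
  have hUib : ContinuousAt L.G t₀ →
      ∀ᶠ s in 𝓝 t₀, |L.Ui s| ≤ |L.G s| * ‖J s‖ ^ 2 := by
    intro _
    filter_upwards with s
    have : L.Ui s = -(1/2) * L.G s * L.YY s := rfl
    rw [this, abs_mul, abs_mul, abs_of_nonneg (hYY0 s)]
    have h1 := hYYb s
    have h2 : |(-(1/2) : ℝ)| = 1/2 := by norm_num
    rw [h2]
    have h3 := abs_nonneg (L.G s)
    nlinarith [mul_le_mul_of_nonneg_left h1 h3]
  rcases le_or_gt (L.W t₀) (2 * L.q t₀) with hle | hgt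
  · -- E ≤ 0
    have hle' : ∀ᶠ s in 𝓝 t₀, L.W s ≤ 2 * L.q s := by
      filter_upwards [hE] with s hs; linarith
    have hcU : ∀ᶠ s in 𝓝 t₀, cert T.Φ C (c s).1 (deriv c s).1 (J s).1 = L.Ui s := by
      filter_upwards [hle'] with s hs
      rw [hcert, if_pos hs]
    rcases eq_or_lt_of_le (hq0 t₀) with hq | hq
    · -- at rest on the zero set
      have hWz : L.W t₀ = 0 := le_antisymm (by rw [← hq] at hle; linarith) (hW0 _)
      have hΦz : T.Φ (c t₀).1 = 0 := by
        have := hLq t₀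
        rw [← hq] at this
        rcases mul_eq_zero.1 this.symm with h | h
        · exact absurd h hC2.ne'
        · exact h
      have hvz : (deriv c t₀).1 = 0 := by
        have e : L.W t₀ = (deriv c t₀).1.re ^ 2 + (deriv c t₀).1.im ^ 2 := rfl
        rw [e] at hWz
        apply Complex.ext
        · have := sq_nonneg (deriv c t₀).1.im
          have := sq_nonneg (deriv c t₀).1.re
          have h2 : (deriv c t₀).1.re ^ 2 = 0 := by linarith
          simpa using h2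
        · have := sq_nonneg (deriv c t₀).1.im
          have := sq_nonneg (deriv c t₀).1.re
          have h2 : (deriv c t₀).1.im ^ 2 = 0 := by linarith
          simpa using h2
      have hrest := rest T hc h3 hvz (grad_zero T hΦz)
      have hcz : ∀ᶠ s in 𝓝 t₀, cert T.Φ C (c s).1 (deriv c s).1 (J s).1 = 0 := by
        filter_upwards [hrest] with s hs
        unfold cert
        rw [hs.1]
        simp
      refine ⟨⟨0, ?_, ?_⟩, ⟨0, ?_⟩⟩
      · refine (hasDerivAt_const t₀ (0:ℝ)).congr_of_eventuallyEq ?_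
        filter_upwards [hcz] with s hs
        rw [hs, mul_zero]
      · have h1 : 0 ≤ L.HYY := by
          have e1 : L.HYY = C ^ 2 * fderiv ℝ (fderiv ℝ T.Φ) (c t₀).1 (J t₀).1 (J t₀).1 :=
            mkLF_H T c J C t₀ hc hJ h30 (J t₀).1
          rw [e1]
          exact mul_nonneg hC2.le (hess_zero_nonneg T hΦz _)
        positivity
      · filter_upwards [hcz] with s hs
        rw [hs]; simp
    · obtain ⟨ε, η, hε, hη, hεη, hζ, hS⟩ := cutoff_data T hc hJ h30 hu hC
      obtain ⟨d, hd, hdle⟩ := caseA L (ζ := fun s =>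
        ss ((Complex.normSq (c s).1 - T.u1) / (T.u2 - T.u1))) (ε := ε) (η := η) hq hle hζ
        (ss_nonneg _) (ss_le_one _) hε hη hεη hcrit hS
      refine ⟨⟨d, ?_, hdle⟩, ?_⟩
      · refine hd.congr_of_eventuallyEq ?_
        filter_upwards [hcU] with s hs
        rw [hs]
      · have hG := (L.hG (by rw [hLt]; exact (add_pos_of_nonneg_of_pos (hW0 t₀) hq).ne')).continuousAt
        refine bound_of_cont (k := fun s => |L.G s|) (fun s => by positivity) hG.abs ?_
        filter_upwards [hUib hG, hcU] with s h1 h2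
        rw [h2]; exact h1
  · -- E > 0
    have hWpos : 0 < L.W t₀ := by linarith [hq0 t₀]
    have hgt' : ∀ᶠ s in 𝓝 t₀, 2 * L.q s < L.W s := by
      filter_upwards [hE] with s hs; linarith
    have hcU : ∀ᶠ s in 𝓝 t₀, cert T.Φ C (c s).1 (deriv c s).1 (J s).1 =
        L.l s ^ 2 * L.Ui s + (1 - L.l s ^ 2) * L.Ue s := by
      filter_upwards [hgt'] with s hs
      rw [hcert, if_neg (not_le.2 hs)]
    have hG := (L.hG (by rw [hLt]; exact (add_pos_of_pos_of_nonneg hWpos (hq0 t₀)).ne')).continuousAt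
    have hl1 : ∀ s, 2 * L.q s < L.W s → L.l s ^ 2 ≤ 1 := by
      intro s _
      have h0 : 0 ≤ L.l s := le_max_left _ _
      have h1 : L.l s ≤ 1 := by
        apply max_le zero_le_one
        rcases eq_or_lt_of_le (hq0 s) with h | h
        · rw [← h]; simp
        · rw [div_le_one (by positivity)]; linarith [hW0 s]
      nlinarith
    -- the bound
    have hbound : ∃ K : ℝ, ∀ᶠ s in 𝓝 t₀,
        |cert T.Φ C (c s).1 (deriv c s).1 (J s).1| ≤ K * ‖J s‖ ^ 2 := by
      have cg1 : ContinuousAt L.g1 t₀ := L.hg1.continuousAt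
      have cg2 : ContinuousAt L.g2 t₀ := L.hg2.continuousAt
      have cv1 : ContinuousAt L.v1 t₀ := L.hv1.continuousAt
      have cv2 : ContinuousAt L.v2 t₀ := L.hv2.continuousAt
      have cp : ContinuousAt L.p t₀ := L.hp.continuousAt
      refine bound_of_cont (k := fun s => |L.G s|
        + (2 * ((|L.g1 s| + |L.g2 s|) * (|L.v1 s| + |L.v2 s|)) / L.W s
          + |L.p s| * (|L.v1 s| + |L.v2 s|) ^ 2 / L.W s ^ 2
          + 1 / 2 * |L.G s| * ((|L.v1 s| + |L.v2 s|) ^ 2 / L.W s)))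
        (fun s => by positivity) ?_ ?_
      · refine hG.abs.add (((ContinuousAt.div ?_ hWc hWpos.ne').add
          (ContinuousAt.div ?_ (hWc.pow 2) (pow_ne_zero 2 hWpos.ne'))).add (ContinuousAt.mul ?_
            (ContinuousAt.div ?_ hWc hWpos.ne')))
        · exact continuousAt_const.mul ((cg1.abs.add cg2.abs).mul (cv1.abs.add cv2.abs))
        · exact cp.abs.mul ((cv1.abs.add cv2.abs).pow 2)
        · exact continuousAt_const.mul hG.abs
        · exact (cv1.abs.add cv2.abs).pow 2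
      · filter_upwards [hUib hG, hcU, hgt'] with s h1 h2 h3
        have hWs : 0 < L.W s := by linarith [hq0 s]
        rw [h2]
        have hl0 : 0 ≤ L.l s ^ 2 := sq_nonneg _
        have hl1' := hl1 s h3
        have n0 : 0 ≤ ‖J s‖ := norm_nonneg _
        have hy1 : |L.y1 s| ≤ ‖J s‖ := J_re_le (J s)
        have hy2 : |L.y2 s| ≤ ‖J s‖ := J_im_le (J s)
        have hgY : |L.gY s| ≤ (|L.g1 s| + |L.g2 s|) * ‖J s‖ := by
          unfold LF.gY
          calc |L.g1 s * L.y1 s + L.g2 s * L.y2 s| ≤ |L.g1 s * L.y1 s| + |L.g2 s * L.y2 s| :=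
                abs_add_le _ _
            _ = |L.g1 s| * |L.y1 s| + |L.g2 s| * |L.y2 s| := by rw [abs_mul, abs_mul]
            _ ≤ |L.g1 s| * ‖J s‖ + |L.g2 s| * ‖J s‖ := by gcongr
            _ = _ := by ring
        have hA : |L.A s| ≤ (|L.v1 s| + |L.v2 s|) * ‖J s‖ := by
          unfold LF.A
          calc |L.v1 s * L.y1 s + L.v2 s * L.y2 s| ≤ |L.v1 s * L.y1 s| + |L.v2 s * L.y2 s| :=
                abs_add_le _ _
            _ = |L.v1 s| * |L.y1 s| + |L.v2 s| * |L.y2 s| := by rw [abs_mul, abs_mul]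
            _ ≤ |L.v1 s| * ‖J s‖ + |L.v2 s| * ‖J s‖ := by gcongr
            _ = _ := by ring
        have hB : |L.B s| ≤ (|L.v1 s| + |L.v2 s|) * ‖J s‖ := by
          unfold LF.B
          calc |L.v1 s * L.y2 s - L.v2 s * L.y1 s| ≤ |L.v1 s * L.y2 s| + |L.v2 s * L.y1 s| :=
                abs_sub _ _
            _ = |L.v1 s| * |L.y2 s| + |L.v2 s| * |L.y1 s| := by rw [abs_mul, abs_mul]
            _ ≤ |L.v1 s| * ‖J s‖ + |L.v2 s| * ‖J s‖ := by gcongr
            _ = _ := by ring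
        have hUe : |L.Ue s| ≤ (2 * ((|L.g1 s| + |L.g2 s|) * (|L.v1 s| + |L.v2 s|)) / L.W s
          + |L.p s| * (|L.v1 s| + |L.v2 s|) ^ 2 / L.W s ^ 2
          + 1 / 2 * |L.G s| * ((|L.v1 s| + |L.v2 s|) ^ 2 / L.W s)) * ‖J s‖ ^ 2 := by
          unfold LF.Ue
          calc |2 * L.gY s * L.A s / L.W s - L.p s * (L.A s) ^ 2 / (L.W s) ^ 2
                - (1 / 2) * L.G s * ((L.B s) ^ 2 / L.W s)|
              ≤ |2 * L.gY s * L.A s / L.W s| + |L.p s * (L.A s) ^ 2 / (L.W s) ^ 2|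
                + |(1 / 2) * L.G s * ((L.B s) ^ 2 / L.W s)| := by
                  refine (abs_sub _ _).trans ?_
                  gcongr
                  exact abs_sub _ _
            _ = 2 * (|L.gY s| * |L.A s|) / L.W s + |L.p s| * |L.A s| ^ 2 / (L.W s) ^ 2
                + (1 / 2) * |L.G s| * (|L.B s| ^ 2 / L.W s) := by
                  simp only [abs_mul, abs_div, abs_pow, abs_of_pos hWs,
                    abs_of_pos (by norm_num : (0:ℝ) < 2), abs_of_pos (by norm_num : (0:ℝ) < 1)]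
                  ring
            _ ≤ 2 * (((|L.g1 s| + |L.g2 s|) * ‖J s‖) * ((|L.v1 s| + |L.v2 s|) * ‖J s‖)) / L.W s
                + |L.p s| * ((|L.v1 s| + |L.v2 s|) * ‖J s‖) ^ 2 / (L.W s) ^ 2
                + (1 / 2) * |L.G s| * (((|L.v1 s| + |L.v2 s|) * ‖J s‖) ^ 2 / L.W s) := by
                  gcongr
            _ = _ := by ring
        calc |L.l s ^ 2 * L.Ui s + (1 - L.l s ^ 2) * L.Ue s|
            ≤ |L.l s ^ 2 * L.Ui s| + |(1 - L.l s ^ 2) * L.Ue s| := abs_add_le _ _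
          _ = L.l s ^ 2 * |L.Ui s| + (1 - L.l s ^ 2) * |L.Ue s| := by
              rw [abs_mul, abs_mul, abs_of_nonneg hl0,
                abs_of_nonneg (show (0:ℝ) ≤ 1 - L.l s ^ 2 by linarith)]
          _ ≤ 1 * |L.Ui s| + 1 * |L.Ue s| := by
              have := abs_nonneg (L.Ui s)
              have := abs_nonneg (L.Ue s)
              gcongr
              linarith
          _ ≤ _ := by
              rw [one_mul, one_mul, add_mul]
              exact add_le_add h1 hUe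
    refine ⟨?_, hbound⟩
    rcases eq_or_lt_of_le (hq0 t₀) with hq | hq
    · -- zero of the potential
      have hΦz : T.Φ (c t₀).1 = 0 := by
        have := hLq t₀
        rw [← hq] at this
        rcases mul_eq_zero.1 this.symm with h | h
        · exact absurd h hC2.ne'
        · exact h
      have hgz := grad_zero T hΦz
      have hu1 : Complex.normSq (c t₀).1 < T.u1 := by
        by_contra hcon
        push Not at hcon
        have h1 := T.P_pos _ hcon
        rw [← T.Φ_eq _ (by linarith [T.u01]), hΦz] at h1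
        exact lt_irrefl _ h1
      have h12 : 0 < T.u2 - T.u1 := by linarith [T.u12]
      obtain ⟨d, hd, hdle⟩ := caseB0 L hq.symm hWpos
        (by
          have g1 : L.g1 L.t = C ^ 2 * fderiv ℝ T.Φ (c t₀).1 1 := rfl
          rw [g1, hgz]; simp)
        (by
          have g2 : L.g2 L.t = C ^ 2 * fderiv ℝ T.Φ (c t₀).1 Complex.I := rfl
          rw [g2, hgz]; simp)
        (by
          intro a b
          have e1 : L.H a b = C ^ 2 * fderiv ℝ (fderiv ℝ T.Φ) (c t₀).1 ⟨a, b⟩ ⟨a, b⟩ :=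
            mkLF_H T c J C t₀ hc hJ h30 ⟨a, b⟩
          rw [e1]
          exact mul_nonneg hC2.le (hess_zero_nonneg T hΦz _))
      refine ⟨d, ?_, hdle⟩
      refine hd.congr_of_eventuallyEq ?_
      have hcont : ContinuousAt (fun s => Complex.normSq (c s).1) t₀ :=
        (Complex.continuous_normSq.comp (continuous_fst.comp hc.continuous)).continuousAt
      have h16 : ∀ᶠ s in 𝓝 t₀, 16 * L.q s < L.W s := by
        have hcc : ContinuousAt (fun s => L.W s - 16 * L.q s) t₀ :=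
          hWc.sub (continuousAt_const.mul hqc)
        have : 0 < L.W t₀ - 16 * L.q t₀ := by rw [← hq]; linarith
        filter_upwards [hcc.eventually (Ioi_mem_nhds this)] with s hs
        have : 0 < L.W s - 16 * L.q s := hs
        linarith
      filter_upwards [hcU, hcont.eventually (Iio_mem_nhds hu1), h16] with s h1 h2 h4
      have hl : L.l s = 0 := by
        unfold LF.l
        apply max_eq_left
        apply div_nonpos_of_nonpos_of_nonneg (by linarith)
        have := hq0 s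
        positivity
      have hs2 : Complex.normSq (c s).1 < T.u1 := h2
      rw [h1, hl, ss_of_le (div_nonpos_of_nonpos_of_nonneg (by linarith) h12.le)]
      ring
    · obtain ⟨ε, η, hε, hη, hεη, hζ, hS⟩ := cutoff_data T hc hJ h30 hu hC
      obtain ⟨d, hd, hdle⟩ := caseB L (ζ := fun s =>
        ss ((Complex.normSq (c s).1 - T.u1) / (T.u2 - T.u1))) (ε := ε) (η := η) hq hgt hζ
        (ss_nonneg _) (ss_le_one _) hε hη hεη hcrit hS
      refine ⟨d, ?_, hdle⟩
      refine hd.congr_of_eventuallyEq ?_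
      filter_upwards [hcU] with s hs
      rw [hs]

end

theorem flatModule : FlatModule := by
  intro T c J t₀ hc hJ hEq hu
  obtain ⟨C, δC, hEq⟩ := hEq
  have hlt : Complex.normSq (c t₀).1 < T.u2' := lt_of_le_of_lt hu T.u22
  have hcont : ContinuousAt (fun s => Complex.normSq (c s).1) t₀ :=
    (Complex.continuous_normSq.comp (continuous_fst.comp hc.continuous)).continuousAt
  have hnear : ∀ᶠ t in 𝓝 t₀, Complex.normSq (c t).1 < T.u2' :=
    hcont.eventually (Iio_mem_nhds hlt)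
  have hnear2 := hnear.eventually_nhds
  have h3 : ∀ᶠ t in 𝓝 t₀, ∀ e : ℂ,
      dot (deriv (deriv c) t).1 e = C ^ 2 * fderiv ℝ T.Φ (c t).1 e := by
    filter_upwards [hEq] with t ht using ht.2.2.1
  obtain ⟨⟨d, hd, hdle⟩, K, hK⟩ := cert_main T hc hJ hu h3
  obtain ⟨e1, e2, _, e4⟩ := hEq.self_of_nhds
  have hD0 := D0_deriv T hJ e1 e2 e4
  refine ⟨⟨_, ?_, (hD0.sub hd).congr_of_eventuallyEq ?_⟩, ?_⟩
  · have hF := F_pos T (c t₀).1
    have : 0 ≤ δC ^ 2 / T.F (c t₀).1 := by positivity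
    linarith
  · filter_upwards [hEq, hnear2] with t ht hn
    exact D_eq T hc hJ hn ht.1 ht.2.1
  · -- the bound
    have cF : ContinuousAt (fun t => fderiv ℝ T.F (c t).1) t₀ := by
      have h1 : Continuous (fderiv ℝ T.F) := (F_smooth T).continuous_fderiv (by simp)
      exact (h1.comp (continuous_fst.comp hc.continuous)).continuousAt
    have cc : ContinuousAt (fun t => deriv c t) t₀ := (smooth_deriv hc).continuous.continuousAt
    have hKK : ∃ K : ℝ, ∀ᶠ t in 𝓝 t₀, |ss ((Complex.normSq (c t).1 - T.u1) / (T.u2 - T.u1))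
        * cert T.Φ C (c t).1 (deriv c t).1 (J t).1| ≤ K * ‖J t‖ ^ 2 := by
      refine ⟨K, ?_⟩
      filter_upwards [hK] with t ht
      rw [abs_mul]
      calc _ ≤ 1 * |cert T.Φ C (c t).1 (deriv c t).1 (J t).1| := by
            gcongr; exact abs_ss_le _
        _ ≤ _ := by rw [one_mul]; exact ht
    obtain ⟨K2, hK2⟩ := hKK
    refine bound_of_cont (k := fun t => (1/2 * (‖fderiv ℝ T.F (c t).1‖ * ‖deriv c t‖)
      + ‖deriv c t‖ * ‖fderiv ℝ T.F (c t).1‖) + K2) (fun s => by positivity)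
      (((continuousAt_const.mul (cF.norm.mul cc.norm)).add (cc.norm.mul cF.norm)).add
        continuousAt_const) ?_
    filter_upwards [hEq, hK2] with t ht h2
    unfold corr
    rw [ht.1, add_mul]
    refine (abs_add_le _ _).trans (add_le_add ?_ h2)
    rw [abs_mul]
    have hg : |gauge (Complex.normSq (c t).1)| ≤ 1 := abs_ss_le _
    have hj2 : |(J t).2| ≤ ‖J t‖ := norm_snd_le (J t)
    have hj1 : ‖(J t).1‖ ≤ ‖J t‖ := norm_fst_le (J t)
    have hc1 : ‖(deriv c t).1‖ ≤ ‖deriv c t‖ := norm_fst_le _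
    have hc2 : |(deriv c t).2| ≤ ‖deriv c t‖ := norm_snd_le (deriv c t)
    have b1 : |fderiv ℝ T.F (c t).1 (deriv c t).1| ≤ ‖fderiv ℝ T.F (c t).1‖ * ‖deriv c t‖ :=
      ((fderiv ℝ T.F (c t).1).le_opNorm _).trans (by gcongr)
    have b2 : |fderiv ℝ T.F (c t).1 (J t).1| ≤ ‖fderiv ℝ T.F (c t).1‖ * ‖J t‖ :=
      ((fderiv ℝ T.F (c t).1).le_opNorm _).trans (by gcongr)
    calc |gauge (Complex.normSq (c t).1)| * |1 / 2 * fderiv ℝ T.F (c t).1 (deriv c t).1
            * (J t).2 ^ 2 - (deriv c t).2 * (J t).2 * fderiv ℝ T.F (c t).1 (J t).1|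
        ≤ 1 * (|1 / 2 * fderiv ℝ T.F (c t).1 (deriv c t).1
            * (J t).2 ^ 2| + |(deriv c t).2 * (J t).2 * fderiv ℝ T.F (c t).1 (J t).1|) := by
          gcongr
          exact abs_sub _ _
      _ = 1 / 2 * |fderiv ℝ T.F (c t).1 (deriv c t).1| * |(J t).2| ^ 2
          + |(deriv c t).2| * |(J t).2| * |fderiv ℝ T.F (c t).1 (J t).1| := by
          simp only [abs_mul, abs_pow, abs_of_pos (by norm_num : (0:ℝ) < 1/2)]
          ring
      _ ≤ 1 / 2 * (‖fderiv ℝ T.F (c t).1‖ * ‖deriv c t‖) * ‖J t‖ ^ 2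
          + ‖deriv c t‖ * ‖J t‖ * (‖fderiv ℝ T.F (c t).1‖ * ‖J t‖) := by
          gcongr
      _ = _ := by ring

end Pool.Agent.Helper79.NC.Flat
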