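import Pool.Agent.Helper79.NC.Spec2

/-!
# The cubic cut-off function `ss`
-/

namespace Pool.Agent.Helper79.NC

open scoped Topology
open Set Filter

theorem ss_of_le {x : ℝ} (h : x ≤ 0) : ss x = 1 := by simp [ss, h]

theorem ss_of_ge {x : ℝ} (h : 1 ≤ x) : ss x = 0 := by
  have h' : ¬ x ≤ 0 := by linarith
  simp [ss, h, h']

theorem ss_mid {x : ℝ} (h0 : 0 ≤ x) (h1 : x ≤ 1) : ss x = (1 - x) ^ 2 * (1 + 2 * x) := by
  unfold ss
  split_ifs with h2 h3
  · have : x = 0 := le_antisymm h2 h0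
    subst this; norm_num
  · have : x = 1 := le_antisymm h1 h3
    subst this; norm_num
  · rfl

theorem ss'_of_le {x : ℝ} (h : x ≤ 0) : ss' x = 0 := by simp [ss', h]

theorem ss'_of_ge {x : ℝ} (h : 1 ≤ x) : ss' x = 0 := by
  have h' : ¬ x ≤ 0 := by linarith
  simp [ss', h, h']

theorem ss'_mid {x : ℝ} (h0 : 0 ≤ x) (h1 : x ≤ 1) : ss' x = -(6 * x * (1 - x)) := by
  unfold ss'
  split_ifs with h2 h3
  · have : x = 0 := le_antisymm h2 h0
    subst this; norm_num
  · have : x = 1 := le_antisymm h1 h3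
    subst this; norm_num
  · rfl

theorem ss_nonneg (x : ℝ) : 0 ≤ ss x := by
  rcases le_total x 0 with h | h
  · rw [ss_of_le h]; norm_num
  rcases le_total 1 x with h1 | h1
  · rw [ss_of_ge h1]
  · rw [ss_mid h h1]; positivity

theorem ss_le_one (x : ℝ) : ss x ≤ 1 := by
  rcases le_total x 0 with h | h
  · rw [ss_of_le h]
  rcases le_total 1 x with h1 | h1
  · rw [ss_of_ge h1]; norm_num
  · rw [ss_mid h h1]
    nlinarith [mul_nonneg (mul_nonneg h h) (by linarith : (0:ℝ) ≤ 3 - 2 * x)]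

theorem ss'_nonpos (x : ℝ) : ss' x ≤ 0 := by
  rcases le_total x 0 with h | h
  · rw [ss'_of_le h]
  rcases le_total 1 x with h1 | h1
  · rw [ss'_of_ge h1]
  · rw [ss'_mid h h1]
    nlinarith [mul_nonneg h (sub_nonneg.2 h1)]

theorem hasDerivAt_ss (x : ℝ) : HasDerivAt ss (ss' x) x := by
  have hp : ∀ y : ℝ, HasDerivAt (fun x : ℝ => (1 - x) ^ 2 * (1 + 2 * x)) (-(6 * y * (1 - y))) y := by
    intro y
    have h1 : HasDerivAt (fun x : ℝ => (1 - x)) (-1) y := by
      simpa using (hasDerivAt_id y).const_sub 1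
    have h2 : HasDerivAt (fun x : ℝ => (1 + 2 * x)) 2 y := by
      simpa using ((hasDerivAt_id y).const_mul 2).const_add 1
    refine ((h1.pow 2).mul h2).congr_deriv ?_
    simp
    ring
  rcases lt_trichotomy x 0 with h | h | h
  · rw [ss'_of_le h.le]
    have : ss =ᶠ[𝓝 x] fun _ => 1 := by
      filter_upwards [Iio_mem_nhds h] with y hy using ss_of_le (le_of_lt hy)
    exact (hasDerivAt_const x (1:ℝ)).congr_of_eventuallyEq this
  · subst h
    rw [ss'_of_le le_rfl]
    rw [← hasDerivWithinAt_univ, ← Iic_union_Ici (a := (0:ℝ))]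
    apply HasDerivWithinAt.union
    · exact ((hasDerivAt_const (0:ℝ) (1:ℝ)).hasDerivWithinAt).congr_of_mem
        (fun y hy => ss_of_le hy) (by simp)
    · have h0 := (hp 0).hasDerivWithinAt (s := Ici 0)
      have h0' : HasDerivWithinAt (fun x : ℝ => (1 - x) ^ 2 * (1 + 2 * x)) 0 (Ici 0) 0 := by
        simpa using h0
      refine h0'.congr_of_eventuallyEq ?_ (ss_mid le_rfl zero_le_one)
      filter_upwards [self_mem_nhdsWithin, mem_nhdsWithin_of_mem_nhds (Iio_mem_nhds one_pos)]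
        with y hy hy1 using ss_mid hy (le_of_lt hy1)
  rcases lt_trichotomy x 1 with h1 | h1 | h1
  · rw [ss'_mid h.le h1.le]
    refine (hp x).congr_of_eventuallyEq ?_
    filter_upwards [Ioi_mem_nhds h, Iio_mem_nhds h1] with y hy hy1 using
      ss_mid (le_of_lt hy) (le_of_lt hy1)
  · subst h1
    rw [ss'_of_ge le_rfl]
    rw [← hasDerivWithinAt_univ, ← Iic_union_Ici (a := (1:ℝ))]
    apply HasDerivWithinAt.union
    · have h0 := (hp 1).hasDerivWithinAt (s := Iic 1)
      have h0' : HasDerivWithinAt (fun x : ℝ => (1 - x) ^ 2 * (1 + 2 * x)) 0 (Iic 1) 1 := by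
        simpa using h0
      refine h0'.congr_of_eventuallyEq ?_ (ss_mid zero_le_one le_rfl)
      filter_upwards [self_mem_nhdsWithin, mem_nhdsWithin_of_mem_nhds (Ioi_mem_nhds one_pos)]
        with y hy hy1 using ss_mid (le_of_lt hy1) hy
    · exact ((hasDerivAt_const (1:ℝ) (0:ℝ)).hasDerivWithinAt).congr_of_mem
        (fun y hy => ss_of_ge hy) (by simp)
  · rw [ss'_of_ge h1.le]
    have : ss =ᶠ[𝓝 x] fun _ => 0 := by
      filter_upwards [Ioi_mem_nhds h1] with y hy using ss_of_ge (le_of_lt hy)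
    exact (hasDerivAt_const x (0:ℝ)).congr_of_eventuallyEq this

theorem abs_ss_le (x : ℝ) : |ss x| ≤ 1 := by
  rw [abs_of_nonneg (ss_nonneg x)]; exact ss_le_one x

theorem gauge_of_le {u : ℝ} (hu : u ≤ 1 / 1000000) : gauge u = 1 := by
  unfold gauge
  apply ss_of_le
  have : √u ≤ 1 / 1000 := by
    rw [Real.sqrt_le_left (by norm_num)]; norm_num; norm_num at hu; linarith
  nlinarith

theorem gauge_of_ge {u : ℝ} (hu : 1 / 64 ≤ u) : gauge u = 0 := by
  unfold gauge
  apply ss_of_ge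
  have : 1 / 8 ≤ √u := by
    apply Real.le_sqrt_of_sq_le; norm_num; norm_num at hu; linarith
  have h2 : (1/8 : ℝ) - 1/1000 ≤ √u - 1/1000 := by linarith
  calc (1:ℝ) = (1/8 - 1/1000) * (250/31) := by norm_num
    _ ≤ (√u - 1/1000) * (250/31) := by gcongr

theorem gauge_nonneg (u : ℝ) : 0 ≤ gauge u := ss_nonneg _

theorem gauge_le_one (u : ℝ) : gauge u ≤ 1 := ss_le_one _

end Pool.Agent.Helper79.NC
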