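import Pool.Agent.Helper79.NC.Spec

/-!
# Interfaces of the second half of the construction for `MP_4787eb_gt`

* `TubeData`: the functions which define the metric in the tube, with all their properties;
* `corr`: the correction term of the Riccati certificate;
* the equations of geodesics and Jacobi fields in the tube;
* the statements of the remaining modules.
-/

namespace Pool.Agent.Helper79.NC

open scoped ContDiff Topology
open Set Filter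

/-- The cross product of `ℂ = ℝ²`. -/
def crs (a b : ℂ) : ℝ := a.re * b.im - a.im * b.re

/-- Cubic cut-off function: `1` for `x ≤ 0`, `0` for `x ≥ 1`. -/
noncomputable def ss (x : ℝ) : ℝ :=
  if x ≤ 0 then 1 else if 1 ≤ x then 0 else (1 - x) ^ 2 * (1 + 2 * x)

/-- The derivative of `ss`. -/
noncomputable def ss' (x : ℝ) : ℝ :=
  if x ≤ 0 then 0 else if 1 ≤ x then 0 else -(6 * x * (1 - x))

/-- The functions defining the metric in the tube `‖w‖ < 1`. -/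
structure TubeData where
  Φ : ℂ → ℝ
  σ : ℂ → ℝ
  P : ℝ → ℝ
  S : ℝ → ℝ
  κ : ℝ
  ρ0 : ℝ
  u0 : ℝ
  u1 : ℝ
  u2 : ℝ
  u2' : ℝ
  u3 : ℝ
  z0 : ℂ
  hΦ : ContDiff ℝ ∞ Φ
  hσ : ContDiff ℝ ∞ σ
  Φ_nonneg : ∀ w, 0 ≤ Φ w
  κ_pos : ∀ w, 0 < κ - 2 * Φ w
  σ_nonneg : ∀ w, 0 ≤ σ w
  σ_lt : ∀ w, σ w * Complex.normSq w < 1
  u0_pos : 0 < u0
  u01 : u0 < u1
  u12 : u1 < u2
  u22 : u2 < u2'
  u23 : u2' < u3
  u3_lt : u3 < 1 / 1000000
  σ_zero : ∀ w, Complex.normSq w < u2' → σ w = 0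
  hP : ContDiffOn ℝ ∞ P (Ioi u0)
  hS : ContDiffOn ℝ ∞ S (Ioi u0)
  Φ_eq : ∀ w, u0 < Complex.normSq w → Φ w = P (Complex.normSq w)
  σ_eq : ∀ w, u0 < Complex.normSq w → σ w = S (Complex.normSq w)
  P_pos : ∀ u, u1 ≤ u → 0 < P u
  P1_pos : ∀ u ∈ Icc u1 u2, 0 < deriv P u
  P2_nonneg : ∀ u ∈ Icc u1 u2, 0 ≤ deriv (deriv P) u
  cutoff : ∀ u ∈ Icc u1 u2, 3600 * u * P u ≤ deriv P u * (u2 - u1) ^ 2
  crit : ∀ w, Complex.normSq w < u2' → LogCriterion (1 / 1000) Φ w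
  crit0 : ∀ w, Complex.normSq w < u2' → fderiv ℝ Φ w = 0 → Φ w = 0
  nat1 : ∀ u, u2 ≤ u → u ≤ 1 / 1000000 → 0 ≤ deriv P u
  nat2 : ∀ u, u2 ≤ u → u ≤ 1 / 1000000 → 0 ≤ deriv P u + 2 * u * deriv (deriv P) u
  nat3 : ∀ u, u2 ≤ u → u ≤ 1 / 1000000 → 0 ≤ S u + u * deriv S u
  hyp1 : ∀ w, u3 ≤ Complex.normSq w → κ - 2 * Φ w = 1 / (1 + Complex.normSq w)
  hyp2 : ∀ w, u3 ≤ Complex.normSq w → σ w = 1 / (1 + Complex.normSq w)
  ρ0_pos : 0 < ρ0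
  Φ_zero : Φ 0 = 0
  Φ_z0 : Φ z0 = 0
  z0_gt : ρ0 < ‖z0‖
  lyap : ∀ z : ℂ, ρ0 < ‖z‖ → Φ z = 0 →
    ∃ (V : ℂ → ℝ) (r : ℝ), 0 < r ∧ ContDiffOn ℝ 2 V (Metric.ball z r) ∧
      ∀ x ∈ Metric.ball z r, (∀ X : ℂ, X ≠ 0 → 0 < fderiv ℝ (fderiv ℝ V) x X X) ∧
        0 ≤ fderiv ℝ V x (gradC Φ x)
  path : ∀ z : ℝ → ℂ, ContinuousOn z (Icc 0 1) → (∀ s ∈ Icc (0 : ℝ) 1, Φ (z s) = 0) →
    ρ0 < ‖z 0‖ → ρ0 < ‖z 1‖

/-- Target of the tube data module. -/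
def TubeDataExists : Prop := Nonempty TubeData

/-- The coefficient of `dθ²`. -/
noncomputable def TubeData.F (T : TubeData) (w : ℂ) : ℝ := 1 / (T.κ - 2 * T.Φ w)

/-- The gauge function: `1` for `√u ≤ 1/1000`, `0` for `√u ≥ 1/8`. -/
noncomputable def gauge (u : ℝ) : ℝ := ss ((√u - 1 / 1000) * (250 / 31))

/-- The certificate `𝒰` in the flat part of the tube, with `C = F θ'` the angular momentum,
`w` the position, `v` the velocity, `Y` the Jacobi field. -/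
noncomputable def cert (Φ : ℂ → ℝ) (C : ℝ) (w v Y : ℂ) : ℝ :=
  let q := C ^ 2 * Φ w
  let W := Complex.normSq v
  let p := C ^ 2 * fderiv ℝ Φ w v
  let gY := C ^ 2 * fderiv ℝ Φ w Y
  let G := p / (W + q)
  let Ui := -(1 / 2) * G * Complex.normSq Y
  let Ue := 2 * gY * dot v Y / W - p * (dot v Y) ^ 2 / W ^ 2 - (1 / 2) * G * ((crs v Y) ^ 2 / W)
  let l := max 0 ((16 * q - W) / (16 * q))
  if W ≤ 2 * q then Ui else l ^ 2 * Ui + (1 - l ^ 2) * Ue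

/-- The correction term `𝒲`, at the position `x`, velocity `ξ` and Jacobi field `j`. -/
noncomputable def corr (T : TubeData) (x ξ j : E3) : ℝ :=
  gauge (Complex.normSq x.1) *
    (1 / 2 * fderiv ℝ T.F x.1 ξ.1 * j.2 ^ 2 - ξ.2 * j.2 * fderiv ℝ T.F x.1 j.1)
  + ss ((Complex.normSq x.1 - T.u1) / (T.u2 - T.u1)) * cert T.Φ (T.F x.1 * ξ.2) x.1 ξ.1 j.1

/-- The equations of the geodesic `c` and of the Jacobi field `J` near `t₀`, in the part of the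
tube where `σ = 0`. -/
def FlatEq (T : TubeData) (c J : ℝ → E3) (t₀ : ℝ) : Prop :=
  ∃ C δC : ℝ, ∀ᶠ t in 𝓝 t₀,
    T.F (c t).1 * (deriv c t).2 = C ∧
    T.F (c t).1 * (deriv J t).2 + fderiv ℝ T.F (c t).1 (J t).1 * (deriv c t).2 = δC ∧
    (∀ e : ℂ, dot (deriv (deriv c) t).1 e = C ^ 2 * fderiv ℝ T.Φ (c t).1 e) ∧
    (∀ e : ℂ, dot (deriv (deriv J) t).1 e =
      C ^ 2 * fderiv ℝ (fderiv ℝ T.Φ) (c t).1 (J t).1 e + 2 * C * δC * fderiv ℝ T.Φ (c t).1 e)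

/-- The equations of the geodesic `c` and of the Jacobi field `J` near `t₀`, in the part
`u = |w|² > u₀` of the tube, where the metric is rotationally symmetric. -/
def RadEq (T : TubeData) (c J : ℝ → E3) (t₀ : ℝ) : Prop :=
  ∃ C δC : ℝ, ∀ᶠ t in 𝓝 t₀,
    T.F (c t).1 * (deriv c t).2 = C ∧
    T.F (c t).1 * (deriv J t).2 + fderiv ℝ T.F (c t).1 (J t).1 * (deriv c t).2 = δC ∧
    ∃ μ ν : ℝ, (deriv (deriv c) t).1 = μ • (c t).1 ∧
      (deriv (deriv J) t).1 = μ • (J t).1 + ν • (c t).1 ∧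
      μ * (1 - T.S (Complex.normSq (c t).1) * Complex.normSq (c t).1) =
        deriv T.S (Complex.normSq (c t).1) * (dot (c t).1 (deriv c t).1) ^ 2
        + T.S (Complex.normSq (c t).1) * Complex.normSq (deriv c t).1
        + 2 * deriv T.P (Complex.normSq (c t).1) * C ^ 2 ∧
      ν * (1 - T.S (Complex.normSq (c t).1) * Complex.normSq (c t).1)
        - μ * (deriv T.S (Complex.normSq (c t).1) * Complex.normSq (c t).1
            + T.S (Complex.normSq (c t).1)) * (2 * dot (c t).1 (J t).1) =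
        2 * deriv (deriv T.S) (Complex.normSq (c t).1) * dot (c t).1 (J t).1
            * (dot (c t).1 (deriv c t).1) ^ 2
        + 2 * deriv T.S (Complex.normSq (c t).1) * dot (c t).1 (deriv c t).1
            * (dot (deriv c t).1 (J t).1 + dot (c t).1 (deriv J t).1)
        + 2 * deriv T.S (Complex.normSq (c t).1) * dot (c t).1 (J t).1
            * Complex.normSq (deriv c t).1
        + 2 * T.S (Complex.normSq (c t).1) * dot (deriv c t).1 (deriv J t).1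
        + 4 * deriv (deriv T.P) (Complex.normSq (c t).1) * dot (c t).1 (J t).1 * C ^ 2
        + 4 * deriv T.P (Complex.normSq (c t).1) * C * δC

/-- The conclusion of the local computations: the function
`½ (g(J,J))' - 𝒲` is nondecreasing at `t₀`, and `𝒲` is bounded by `K |J|²` near `t₀`. -/
def LocalConclusion (T : TubeData) (c J : ℝ → E3) (t₀ : ℝ) : Prop :=
  (∃ d : ℝ, 0 ≤ d ∧ HasDerivAt (fun t =>
      1 / 2 * deriv (fun τ => tubeMetric T.F T.σ (c τ) (J τ) (J τ)) t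
        - corr T (c t) (deriv c t) (J t)) d t₀) ∧
  ∃ K : ℝ, ∀ᶠ t in 𝓝 t₀, |corr T (c t) (deriv c t) (J t)| ≤ K * ‖J t‖ ^ 2

/-! ### Modules of the second half -/

/-- Module M1a: the radial profile, `R ρ = exp (-N (K (10⁴ ρ - 1)⁻⁷ + 1))`. -/
noncomputable def profR (N K ρ : ℝ) : ℝ :=
  Real.exp (-(N * (K * ((10000 * ρ - 1) ^ 7)⁻¹ + 1)))

/-- Module M1a. -/
def ProfileExists : Prop :=
  ∀ K : ℝ, 0 < K → ∃ N₁ : ℝ, 0 < N₁ ∧ ∀ N : ℝ, N₁ ≤ N →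
    ∃ (Q : ℝ → ℝ) (κ : ℝ), ContDiff ℝ ∞ Q ∧
      (∀ ρ ≤ 35 / 100000, Q ρ = 0) ∧ (∀ ρ, 1 / 10000 < ρ → 0 < profR N K ρ + Q ρ) ∧
      (∀ ρ, 4 / 10000 ≤ ρ → κ - 2 * (profR N K ρ + Q ρ) = 1 / (1 + ρ ^ 2)) ∧
      (∀ ρ, 1 / 10000 < ρ → ρ ≤ 4 / 10000 → profR N K ρ + Q ρ ≤ 1 / 100) ∧
      (99 / 100 ≤ κ) ∧
      (∀ ρ, 3 / 10000 ≤ ρ → ρ ≤ 1 / 1000 → 0 ≤ deriv (fun r => profR N K r + Q r) ρ ∧
        0 ≤ deriv (deriv (fun r => profR N K r + Q r)) ρ) ∧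
      (∀ ρ, 2 / 10000 ≤ ρ → ρ ≤ 3 / 10000 →
        0 < deriv (profR N K) ρ ∧
        deriv (profR N K) ρ ≤ ρ * deriv (deriv (profR N K)) ρ ∧
        3600 * ρ ^ 2 * profR N K ρ ≤ deriv (profR N K) ρ / (2 * ρ) * (5 / 100000000) ^ 2)

/-- Module M2a: derivatives with respect to the parameter of a variation. -/
def VariationCalc : Prop :=
  ∀ (ε : ℝ) (V : ℝ → ℝ → E3), 0 < ε →
    ContDiffOn ℝ ∞ (fun p : ℝ × ℝ => V p.1 p.2) (Ioo (-ε) ε ×ˢ univ) →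
    ContDiff ℝ ∞ (fun t => deriv (fun s => V s t) 0) ∧
    ∀ t, HasDerivAt (fun s => V s t) (deriv (fun s => V s t) 0) 0 ∧
      HasDerivAt (fun s => deriv (V s) t)
        (deriv (fun t => deriv (fun s => V s t) 0) t) 0 ∧
      HasDerivAt (fun s => deriv (deriv (V s)) t)
        (deriv (deriv (fun t => deriv (fun s => V s t) 0)) t) 0

/-- Module M2b: `g(J, c')` is an affine function. -/
def JacobiAffine : Prop :=
  ∀ (g : E3 → E3 →L[ℝ] E3 →L[ℝ] ℝ), IsRiemannianMetric g →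
    ∀ c J : ℝ → E3, IsGeodesic g c → IsJacobiField g c J →
      ∃ α β : ℝ, ∀ t, g (c t) (J t) (deriv c t) = α * t + β

/-- Module M2c: isometries map Jacobi fields to Jacobi fields. -/
def IsoJacobi : Prop :=
  ∀ (g : E3 → E3 →L[ℝ] E3 →L[ℝ] ℝ) (φ ψ : E3 → E3), IsRiemannianMetric g →
    ContDiff ℝ ∞ φ → ContDiff ℝ ∞ ψ → (∀ x, ψ (φ x) = x) → (∀ x, φ (ψ x) = x) →
    (∀ x v w, g (φ x) (fderiv ℝ φ x v) (fderiv ℝ φ x w) = g x v w) →
    ∀ c J : ℝ → E3, IsGeodesic g c → IsJacobiField g c J →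
      IsJacobiField g (fun t => φ (c t)) (fun t => fderiv ℝ φ (c t) (J t))

/-- Module M3a, flat part: the equations of a geodesic. -/
def GeoFlat : Prop :=
  ∀ (T : TubeData) (g : E3 → E3 →L[ℝ] E3 →L[ℝ] ℝ) (c : ℝ → E3), IsGeodesic g c →
    ∀ t₀ : ℝ, (∀ᶠ x in 𝓝 (c t₀), g x = tubeMetric T.F T.σ x) →
      HasDerivAt (fun t => T.F (c t).1 * (deriv c t).2) 0 t₀ ∧
      (Complex.normSq (c t₀).1 < T.u2' → ∀ e : ℂ, dot (deriv (deriv c) t₀).1 e =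
        (T.F (c t₀).1 * (deriv c t₀).2) ^ 2 * fderiv ℝ T.Φ (c t₀).1 e)

/-- Module M3a, radial part. -/
def GeoRad : Prop :=
  ∀ (T : TubeData) (g : E3 → E3 →L[ℝ] E3 →L[ℝ] ℝ) (c : ℝ → E3), IsGeodesic g c →
    ∀ t₀ : ℝ, (∀ᶠ x in 𝓝 (c t₀), g x = tubeMetric T.F T.σ x) →
      T.u0 < Complex.normSq (c t₀).1 →
      (1 - T.S (Complex.normSq (c t₀).1) * Complex.normSq (c t₀).1) • (deriv (deriv c) t₀).1 =
        (deriv T.S (Complex.normSq (c t₀).1) * (dot (c t₀).1 (deriv c t₀).1) ^ 2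
        + T.S (Complex.normSq (c t₀).1) * Complex.normSq (deriv c t₀).1
        + 2 * deriv T.P (Complex.normSq (c t₀).1) * (T.F (c t₀).1 * (deriv c t₀).2) ^ 2)
          • (c t₀).1

/-- Module M3b: the equations of geodesics and Jacobi fields. -/
def EqModule : Prop :=
  ∀ (T : TubeData) (g : E3 → E3 →L[ℝ] E3 →L[ℝ] ℝ) (c J : ℝ → E3), IsGeodesic g c →
    IsJacobiField g c J → ∀ t₀ : ℝ, (∀ᶠ x in 𝓝 (c t₀), g x = tubeMetric T.F T.σ x) →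
      (Complex.normSq (c t₀).1 < T.u2' → FlatEq T c J t₀) ∧
      (T.u0 < Complex.normSq (c t₀).1 → RadEq T c J t₀)

/-- Module M4: the flat part of the tube. -/
def FlatModule : Prop :=
  ∀ (T : TubeData) (c J : ℝ → E3) (t₀ : ℝ), ContDiff ℝ ∞ c → ContDiff ℝ ∞ J →
    FlatEq T c J t₀ → Complex.normSq (c t₀).1 ≤ T.u2 → LocalConclusion T c J t₀

/-- Module M5a: the rotationally symmetric part of the tube, inner part. -/
def RadNat : Prop :=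
  ∀ (T : TubeData) (c J : ℝ → E3) (t₀ : ℝ), ContDiff ℝ ∞ c → ContDiff ℝ ∞ J →
    RadEq T c J t₀ → T.u2 < Complex.normSq (c t₀).1 → Complex.normSq (c t₀).1 < 1 / 1000000 →
      LocalConclusion T c J t₀

/-- Module M5b: the hyperbolic part of the tube. -/
def RadHyp : Prop :=
  ∀ (T : TubeData) (c J : ℝ → E3) (t₀ : ℝ), ContDiff ℝ ∞ c → ContDiff ℝ ∞ J →
    RadEq T c J t₀ → T.u3 < Complex.normSq (c t₀).1 →
      (∀ᶠ t in 𝓝 t₀, tubeMetric T.F T.σ (c t) (J t) (deriv c t) = 0) →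
      LocalConclusion T c J t₀

/-- Module M6: the local statement used in the global argument. -/
def LocalConvexity : Prop :=
  ∀ (T : TubeData) (g : E3 → E3 →L[ℝ] E3 →L[ℝ] ℝ) (c J : ℝ → E3), IsRiemannianMetric g →
    IsGeodesic g c → IsJacobiField g c J → ∀ t₀ : ℝ,
    (∀ᶠ t in 𝓝 t₀, g (c t) (J t) (deriv c t) = 0) →
    (∀ᶠ x in 𝓝 (c t₀), g x = tubeMetric T.F T.σ x) →
      (∃ d : ℝ, 0 ≤ d ∧ HasDerivAt (fun t =>
          1 / 2 * deriv (fun τ => g (c τ) (J τ) (J τ)) t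
            - corr T (c t) (deriv c t) (J t)) d t₀) ∧
      ∃ K : ℝ, ∀ᶠ t in 𝓝 t₀, |corr T (c t) (deriv c t) (J t)| ≤ K * ‖J t‖ ^ 2

/-- The hypotheses of the global arguments. -/
structure GlobalData (Γ : Type) [Group Γ] [MulAction Γ E3] (T : TubeData)
    (g : E3 → E3 →L[ℝ] E3 →L[ℝ] ℝ) : Prop where
  lattice : IsTubeLattice Γ
  presents : PresentsClosedManifold Γ g
  tube : ∀ x : E3, ‖x.1‖ < 1 → g x = tubeMetric T.F T.σ x
  outer : ∀ x : E3, (∀ γ : Γ, 1 / 2 < ‖(γ • x).1‖) → ∀ v w, g x v w = hypForm x v w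
  isOpen_outer : IsOpen {x : E3 | ∀ γ : Γ, 1 / 2 < ‖(γ • x).1‖}

/-- Module M7: no conjugate points. -/
def GlobalNoConj : Prop :=
  ∀ (Γ : Type) [Group Γ] [MulAction Γ E3] (T : TubeData) (g : E3 → E3 →L[ℝ] E3 →L[ℝ] ℝ),
    GlobalData Γ T g → NoConjugatePoints g

/-- Module M8: the two closed geodesics are not homotopic through closed geodesics. -/
def NotHomotopic : Prop :=
  ∀ (Γ : Type) [Group Γ] [MulAction Γ E3] (T : TubeData) (g : E3 → E3 →L[ℝ] E3 →L[ℝ] ℝ),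
    GlobalData Γ T g → ∀ (τ : Γ) (ℓ : ℝ), 0 < ℓ → (∀ y : E3, τ • y = (y.1, y.2 + ℓ)) →
    ∀ γ₀ γ₁ : C(AddCircle (1 : ℝ), QuotM E3 Γ),
      (∀ t : ℝ, γ₀ (t : AddCircle (1 : ℝ)) = proj Γ ((T.z0, ℓ * t) : E3)) →
      (∀ t : ℝ, γ₁ (t : AddCircle (1 : ℝ)) = proj Γ ((0, ℓ * t) : E3)) →
      ¬ HomotopicThroughClosedGeodesics Γ g γ₀ γ₁

/-- Module M9: the lines over the zero set of `Φ` are closed geodesics, all freely homotopic. -/
def LinesModule : Prop :=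
  ∀ (Γ : Type) [Group Γ] [MulAction Γ E3] (T : TubeData) (g : E3 → E3 →L[ℝ] E3 →L[ℝ] ℝ),
    GlobalData Γ T g → ∀ (τ : Γ) (ℓ : ℝ), 0 < ℓ → (∀ y : E3, τ • y = (y.1, y.2 + ℓ)) →
    (∀ z : ℂ, T.Φ z = 0 → IsGeodesic g (fun t => ((z, ℓ * t) : E3))) ∧
    ∃ γ : ℂ → C(AddCircle (1 : ℝ), QuotM E3 Γ),
      (∀ (z : ℂ) (t : ℝ), γ z (t : AddCircle (1 : ℝ)) = proj Γ ((z, ℓ * t) : E3)) ∧
      ∀ z z' : ℂ, ContinuousMap.Homotopic (γ z) (γ z')

end Pool.Agent.Helper79.NC
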